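import Mathlib
import Pool.Agent.H238R2.HY.Main
import Pool.Agent.W378.KF.Ball
import Pool.Agent.W215.KF.Paths
import Pool.Agent.W305.KF.Mark
import Pool.Agent.W723.KF.Cut
import Pool.Agent.W177.KF.Hoef
import Pool.Agent.W613.KF.Flip
import Pool.Agent.W240.KF.Level
import Pool.Agent.W853.KF.SG
import Pool.Agent.W52.KF.Rec
import Pool.Agent.W372.KF.Phase
import Pool.Agent.W319.KF.Edge
import Pool.Agent.W583.KF.Lab

set_option autoImplicit false

/-!
The circular bound of the starting result LogarithmicError (of helper842 and the authors of the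
imported files).
-/

namespace Pool.Agent.Y423.HY

open Pool.Agent.W842.KF Pool.Agent.H238R2.HY

theorem t_cut : S_CUT :=
  Pool.Agent.W723.KF.t_cut Pool.Agent.W378.KF.t_ball Pool.Agent.W378.KF.t_bmeet
    Pool.Agent.W378.KF.t_grow Pool.Agent.W215.KF.t_paths Pool.Agent.W215.KF.t_cls
    Pool.Agent.W305.KF.t_mark1 Pool.Agent.W305.KF.t_mark2

theorem t_level : S_LEVEL :=
  Pool.Agent.W240.KF.t_level t_cut
    (Pool.Agent.W613.KF.t_flip Pool.Agent.W215.KF.t_cls Pool.Agent.W177.KF.t_hoef)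
    Pool.Agent.W215.KF.t_kempe

theorem t_phase : S_PHASE :=
  Pool.Agent.W372.KF.t_phase t_level Pool.Agent.W853.KF.t_sg Pool.Agent.W52.KF.t_rec

theorem t_lab : S_LAB :=
  Pool.Agent.W583.KFLab.t_lab (Pool.Agent.W319.KF.t_edge t_phase)

theorem circ_log {V : Type} [Fintype V] (G : SimpleGraph V) [DecidableRel G.Adj] (p : ℕ)
    (hp : 1 ≤ p) : ∃ N : ℕ,
      (N : ℝ) ≤ G.maxDegree + 66 * p + 524 * Real.log (G.maxDegree + 1) ∧ CircLab G p N := by
  have hlog : 0 ≤ Real.log ((G.maxDegree : ℝ) + 1) :=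
    Real.log_nonneg (by have : (0 : ℝ) ≤ G.maxDegree := Nat.cast_nonneg _; linarith)
  have hpr : (1 : ℝ) ≤ p := by exact_mod_cast hp
  rcases Nat.lt_or_ge (G.maxDegree + 1) 64 with h64 | h64
  · refine ⟨2 * G.maxDegree + 2 * p, ?_, trivial_bound G p hp⟩
    have h1 : (G.maxDegree : ℝ) ≤ 62 := by exact_mod_cast (by omega : G.maxDegree ≤ 62)
    push_cast
    linarith
  · rcases Nat.lt_or_ge (G.maxDegree + 1) (2 * p - 1) with hlt | hge
    · refine ⟨2 * G.maxDegree + 2 * p, ?_, trivial_bound G p hp⟩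
      have h1 : (G.maxDegree : ℝ) ≤ 2 * p := by
        exact_mod_cast (by omega : G.maxDegree ≤ 2 * p)
      push_cast
      linarith
    · exact t_lab V G p hp h64 hge

end Pool.Agent.Y423.HY
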