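import Mathlib
import Pool.Agent.H238R2.HY.Struct
import Pool.Agent.TH288.LEC.Galvin

set_option autoImplicit false

/-!
A criterion for (p,1)-total labellings of small span: a bipartite subgraph whose edges join vertices
with consecutive labels is coloured by Galvin's theorem.
-/

namespace Pool.Agent.Y423.HY

open SimpleGraph Finset

/-- `G` has a proper edge colouring with `t` colours. -/
def EC {V : Type} (G : SimpleGraph V) (t : ℕ) : Prop :=
  ∃ φ : V → V → ℕ, (∀ u v, G.Adj u v → φ u v = φ v u) ∧ (∀ u v, G.Adj u v → φ u v < t) ∧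
    ∀ u v w, G.Adj u v → G.Adj u w → v ≠ w → φ u v ≠ φ u w

/-- `G` has a `(p,1)`-total labelling with labels at most `s`. -/
def Lab {V : Type} (G : SimpleGraph V) (p s : ℕ) : Prop :=
  ∃ (fV : V → ℕ) (fE : Sym2 V → ℕ),
    (∀ v : V, fV v ≤ s) ∧ (∀ e ∈ G.edgeSet, fE e ≤ s) ∧
    (∀ u v : V, G.Adj u v → fV u ≠ fV v) ∧
    (∀ u v : V, G.Adj u v → (p : ℤ) ≤ |(fV u : ℤ) - (fE s(u, v) : ℤ)|) ∧
    (∀ u v w : V, G.Adj u v → G.Adj u w → v ≠ w → fE s(u, v) ≠ fE s(u, w))

theorem Lab.of_fun {V : Type} {G : SimpleGraph V} {p s : ℕ} (c : V → ℕ) (φ : V → V → ℕ)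
    (hc : ∀ v, c v ≤ s) (hc2 : ∀ u v, G.Adj u v → c u ≠ c v)
    (h1 : ∀ u v, G.Adj u v → φ u v = φ v u) (h2 : ∀ u v, G.Adj u v → φ u v ≤ s)
    (h3 : ∀ u v, G.Adj u v → c u + p ≤ φ u v ∨ φ u v + p ≤ c u)
    (h4 : ∀ u v w, G.Adj u v → G.Adj u w → v ≠ w → φ u v ≠ φ u w) : Lab G p s := by
  classical
  let ψ : V → V → ℕ := fun u v => if G.Adj u v then φ u v else 0
  have hψ : ∀ u v, ψ u v = ψ v u := fun u v => by
    by_cases h : G.Adj u v
    · simp only [ψ, if_pos h, if_pos h.symm, h1 u v h]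
    · simp only [ψ, if_neg h, if_neg (fun h' => h (SimpleGraph.Adj.symm h'))]
  have hψ2 : ∀ u v, G.Adj u v → ψ u v = φ u v := fun u v h => if_pos h
  refine ⟨c, Sym2.lift ⟨ψ, hψ⟩, hc, ?_, hc2, ?_, ?_⟩
  · intro e
    induction e using Sym2.ind with
    | _ u v =>
      intro he
      rw [mem_edgeSet] at he
      rw [Sym2.lift_mk]
      show ψ u v ≤ s
      rw [hψ2 u v he]
      exact h2 u v he
  · intro u v he
    rw [Sym2.lift_mk]
    show (p : ℤ) ≤ |(c u : ℤ) - (ψ u v : ℤ)|
    rw [hψ2 u v he, le_abs]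
    rcases h3 u v he with h | h
    · right; omega
    · left; omega
  · intro u v w hv hw hvw
    rw [Sym2.lift_mk, Sym2.lift_mk]
    show ψ u v ≠ ψ u w
    rw [hψ2 u v hv, hψ2 u w hw]
    exact h4 u v w hv hw hvw

/-- Galvin's theorem for a graph whose edges join even and odd vertices. -/
theorem galvin_par {V : Type} [Finite V] (B : SimpleGraph V) (m : ℕ) (c : V → ℕ)
    (hpar : ∀ u v, B.Adj u v → c u % 2 ≠ c v % 2)
    (hdeg : ∀ v, (B.neighborSet v).ncard ≤ m) (L : V → V → Finset ℕ)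
    (hL : ∀ u v, B.Adj u v → L u v = L v u) (hcard : ∀ u v, B.Adj u v → m ≤ (L u v).card) :
    ∃ φ : V → V → ℕ, (∀ u v, B.Adj u v → φ u v = φ v u) ∧ (∀ u v, B.Adj u v → φ u v ∈ L u v) ∧
      ∀ u v w, B.Adj u v → B.Adj u w → v ≠ w → φ u v ≠ φ u w := by
  classical
  have := Fintype.ofFinite V
  set E : Finset (V × V) := univ.filter (fun e => B.Adj e.1 e.2 ∧ c e.1 % 2 = 0) with hE
  have hmem : ∀ u v, (u, v) ∈ E ↔ B.Adj u v ∧ c u % 2 = 0 := fun u v => by simp [hE]
  have hr : ∀ w, (E.filter (fun f => f.2 = w)).card ≤ m := by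
    intro w
    refine le_trans ?_ (hdeg w)
    rw [Set.ncard_eq_toFinset_card']
    refine card_le_card_of_injOn (fun f => f.1) ?_ ?_
    · intro f hf
      rw [mem_coe, mem_filter, hE, mem_filter] at hf
      rw [mem_coe, Set.mem_toFinset, mem_neighborSet]
      have := hf.1.2.1
      rw [hf.2] at this
      exact this.symm
    · intro f hf g hg hfg
      rw [mem_coe, mem_filter] at hf hg
      exact Prod.ext hfg (hf.2.trans hg.2.symm)
  have hl : ∀ e ∈ E, (E.filter (fun f => f.1 = e.1)).card ≤ m := by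
    intro e _
    refine le_trans ?_ (hdeg e.1)
    rw [Set.ncard_eq_toFinset_card']
    refine card_le_card_of_injOn (fun f => f.2) ?_ ?_
    · intro f hf
      rw [mem_coe, mem_filter, hE, mem_filter] at hf
      rw [mem_coe, Set.mem_toFinset, mem_neighborSet]
      have := hf.1.2.1
      rw [hf.2] at this
      exact this
    · intro f hf g hg hfg
      rw [mem_coe, mem_filter] at hf hg
      exact Prod.ext (hf.2.trans hg.2.symm) hfg
  obtain ⟨col, h1, h2⟩ := Pool.Agent.TH288.LEC.galvin_local E (fun _ => m) hr hl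
    (fun e => L e.1 e.2) (fun e he => by
      obtain ⟨a, b⟩ := e
      exact hcard _ _ ((hmem _ _).1 he).1)
  refine ⟨fun u v => if c u % 2 = 0 then col (u, v) else col (v, u), ?_, ?_, ?_⟩
  · intro u v huv
    have hp := hpar u v huv
    by_cases hu : c u % 2 = 0
    · have hv : ¬ c v % 2 = 0 := by omega
      simp only [if_pos hu, if_neg hv]
    · have hv : c v % 2 = 0 := by omega
      simp only [if_neg hu, if_pos hv]
  · intro u v huv
    have hp := hpar u v huv
    by_cases hu : c u % 2 = 0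
    · simp only [if_pos hu]
      exact h1 (u, v) ((hmem _ _).2 ⟨huv, hu⟩)
    · have hv : c v % 2 = 0 := by omega
      simp only [if_neg hu]
      rw [hL u v huv]
      exact h1 (v, u) ((hmem _ _).2 ⟨huv.symm, hv⟩)
  · intro u v w huv huw hvw
    have hp := hpar u v huv
    have hp' := hpar u w huw
    by_cases hu : c u % 2 = 0
    · simp only [if_pos hu]
      exact h2 _ ((hmem _ _).2 ⟨huv, hu⟩) _ ((hmem _ _).2 ⟨huw, hu⟩)
        (fun h => hvw (congrArg Prod.snd h)) (Or.inl rfl)
    · have hv : c v % 2 = 0 := by omega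
      have hw : c w % 2 = 0 := by omega
      simp only [if_neg hu]
      exact h2 _ ((hmem _ _).2 ⟨huv.symm, hv⟩) _ ((hmem _ _).2 ⟨huw.symm, hw⟩)
        (fun h => hvw (congrArg Prod.fst h)) (Or.inr rfl)

/-- Joining a colouring of `B` with small colours and a colouring of the rest. -/
theorem lab_join {V : Type} (P B : SimpleGraph V) (p m t : ℕ) (c : V → ℕ) (hp : 1 ≤ p)
    (hc : ∀ v, c v ≤ m + p) (hprop : ∀ u v, P.Adj u v → c u ≠ c v)
    (φ : V → V → ℕ) (h1 : ∀ u v, B.Adj u v → φ u v = φ v u)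
    (h2 : ∀ u v, B.Adj u v → φ u v < m + 2 * p ∧ (c u + p ≤ φ u v ∨ φ u v + p ≤ c u))
    (h3 : ∀ u v w, B.Adj u v → B.Adj u w → v ≠ w → φ u v ≠ φ u w)
    (hrest : EC (P \ B) t) : Lab P p (m + t + 2 * p - 1) := by
  classical
  obtain ⟨ψ, g1, g2, g3⟩ := hrest
  have hadj : ∀ u v, P.Adj u v → ¬ B.Adj u v → (P \ B).Adj u v := fun u v h h' =>
    (sdiff_adj P B u v).2 ⟨h, h'⟩
  refine Lab.of_fun c (fun u v => if B.Adj u v then φ u v else m + 2 * p + ψ u v)
    (fun v => ?_) hprop ?_ ?_ ?_ ?_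
  · have := hc v
    omega
  · intro u v huv
    by_cases hb : B.Adj u v
    · simp only [if_pos hb, if_pos hb.symm, h1 u v hb]
    · simp only [if_neg hb, if_neg (fun h' => hb (SimpleGraph.Adj.symm h')), g1 u v (hadj u v huv hb)]
  · intro u v huv
    by_cases hb : B.Adj u v
    · simp only [if_pos hb]
      have := (h2 u v hb).1
      omega
    · simp only [if_neg hb]
      have := g2 u v (hadj u v huv hb)
      omega
  · intro u v huv
    by_cases hb : B.Adj u v
    · simp only [if_pos hb]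
      exact (h2 u v hb).2
    · simp only [if_neg hb]
      have := hc u
      omega
  · intro u v w huv huw hvw
    by_cases hb : B.Adj u v
    · by_cases hb' : B.Adj u w
      · simp only [if_pos hb, if_pos hb']
        exact h3 u v w hb hb' hvw
      · simp only [if_pos hb, if_neg hb']
        have := (h2 u v hb).1
        omega
    · by_cases hb' : B.Adj u w
      · simp only [if_neg hb, if_pos hb']
        have := (h2 u w hb').1
        omega
      · simp only [if_neg hb, if_neg hb']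
        have := g3 u v w (hadj u v huv hb) (hadj u w huw hb') hvw
        omega

/-- The criterion. -/
theorem crit {V : Type} [Finite V] (P B : SimpleGraph V) (p m t : ℕ) (c : V → ℕ) (hp : 1 ≤ p)
    (hB : B ≤ P) (hc : ∀ v, c v ≤ m + p) (hprop : ∀ u v, P.Adj u v → c u ≠ c v)
    (hpair : ∀ u v, B.Adj u v → c u / 2 = c v / 2)
    (hdeg : ∀ v, (B.neighborSet v).ncard ≤ m) (hrest : EC (P \ B) t) :
    Lab P p (m + t + 2 * p - 1) := by
  classical
  have hpar : ∀ u v, B.Adj u v → c u % 2 ≠ c v % 2 := fun u v h => by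
    have h1 := hpair u v h
    have h2 := hprop u v (hB h)
    omega
  obtain ⟨φ, h1, h2, h3⟩ := galvin_par B m c hpar hdeg
    (fun u _ => (range (m + 2 * p)) \ (Icc (2 * (c u / 2) + 1 - p) (2 * (c u / 2) + p)))
    (fun u v h => by rw [hpair u v h]) (fun u v _ => by
      have e1 := le_card_sdiff (Icc (2 * (c u / 2) + 1 - p) (2 * (c u / 2) + p))
        (range (m + 2 * p))
      rw [card_range, Nat.card_Icc] at e1
      omega)
  refine lab_join P B p m t c hp hc hprop φ h1 ?_ h3 hrest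
  intro u v huv
  have e := h2 u v huv
  rw [mem_sdiff, mem_range, mem_Icc] at e
  refine ⟨e.1, ?_⟩
  have e2 := e.2
  have e3 := hpair u v huv
  omega

end Pool.Agent.Y423.HY
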