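import Pool.Agent.H162R2.Sparse.PTotal
import Pool.Agent.H238R2.HY.Struct

set_option autoImplicit false

/-!
Labellings of sparse graphs with few vertex labels (a variant of `main_p` of the starting library:
short lists at the vertices).
-/

namespace Pool.Agent.Y423.HY

open Finset Pool.Agent.H162R2.Sparse

theorem main_pK {V : Type} [Fintype V] [DecidableEq V] (p : ℕ) (hp : 1 ≤ p) (D : ℕ) (a : ℝ)
    (ha : 34 * a * (1 + Real.log D) ≤ D)
    (L : V → V → Finset ℕ) (M : V → Finset ℕ)
    (hsym : ∀ a b, L a b = L b a) (hM : ∀ v, 4 * p * a < (M v).card) :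
    ∀ (n : ℕ) (G : SimpleGraph V), (pr G).card = n → (∀ v, dg G v ≤ D) → Dens G a →
      (∀ u v, G.Adj u v → D + 2 * p ≤ (L u v).card + 1) → LP p G L M := by
  classical
  intro n
  induction n using Nat.strong_induction_on with
  | _ n ih =>
    intro G hn hD hdens hL
    have ha0 : ∀ u, (dg G u : ℝ) ≤ 2 * a → 2 * p * dg G u < (M u).card := by
      intro u h
      have h0 : (0 : ℝ) ≤ p := by positivity
      have h1 : (2 * p * (dg G u : ℝ)) < (M u).card := by
        have := hM u
        nlinarith
      exact_mod_cast h1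
    by_cases hedge : ∃ u v, G.Adj u v
    · by_cases hsmall : ∃ u v, G.Adj u v ∧ dg G u + dg G v ≤ D + 1 ∧ (dg G u : ℝ) ≤ 2 * a
      · obtain ⟨u, v, huv, hdeg, hu⟩ := hsmall
        have hmono : ∀ a b, (cutE G u v).Adj a b → G.Adj a b := by
          intro a b h
          exact ((cutE_adj G u v a b).1 h).1
        apply ext_edgeP p hp G u v huv L M hsym
        · have := hL u v huv
          omega
        · exact ha0 u hu
        · apply ih _ _ (cutE G u v) rfl
          · intro w
            exact (dg_mono hmono w).trans (hD w)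
          · exact Dens_mono hmono hdens
          · intro x y hxy
            exact hL x y (hmono x y hxy)
          · rw [← hn]
            apply pr_card_lt hmono u v huv
            rw [cutE_adj]
            tauto
      · push Not at hsmall
        obtain ⟨X, hX1, hX2, hX3, hX4⟩ := struct G D a hD hdens ha hedge (by
          intro u v huv h
          have h1 := hsmall u v huv
          by_contra hcon
          have h3 := h1 (by omega)
          linarith)
        have hmono : ∀ a b, (cutX G X).Adj a b → G.Adj a b := by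
          intro a b h
          exact ((cutX_adj G X a b).1 h).1
        refine ext_bipP p hp G X D L M hX3 hX4 hD hL (fun u hu => ha0 u (hX2 u hu).2.1) hsym ?_
        apply ih _ _ (cutX G X) rfl
        · intro w
          exact (dg_mono hmono w).trans (hD w)
        · exact Dens_mono hmono hdens
        · intro x y hxy
          exact hL x y (hmono x y hxy)
        · rw [← hn]
          obtain ⟨u, hu⟩ := hX1
          have h1 := (hX2 u hu).1
          unfold dg at h1
          rw [Nat.one_le_iff_ne_zero, Finset.card_ne_zero] at h1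
          obtain ⟨v, hv⟩ := h1
          rw [mem_nb] at hv
          apply pr_card_lt hmono u v hv
          rw [cutX_adj]
          tauto
    · push Not at hedge
      have hM0 : ∀ v, ∃ m, m ∈ M v := by
        intro v
        have hv : dg G v = 0 := by
          unfold dg
          rw [Finset.card_eq_zero, Finset.eq_empty_iff_forall_notMem]
          intro w hw
          exact hedge v w ((mem_nb G v w).1 hw)
        rcases lt_or_ge a 0 with h | h
        · exfalso
          have h1 := hdens {v}
          have h2 : (0 : ℝ) ≤ (((pr G).filter (fun e => e.1 ∈ ({v} : Finset V) ∧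
            e.2 ∈ ({v} : Finset V))).card : ℝ) := Nat.cast_nonneg _
          rw [card_singleton] at h1
          push_cast at h1
          linarith
        · have h1 := ha0 v (by rw [hv]; push_cast; linarith)
          exact Finset.card_pos.1 (by omega)
      choose g hg using hM0
      exact ⟨fun _ _ => 0, g, fun x y h => absurd h (hedge x y),
        fun x y h => absurd h (hedge x y), fun x y z h => absurd h (hedge x y), hg,
        fun x y h => absurd h (hedge x y), fun x y h => absurd h (hedge x y)⟩

/-- A circular labelling of a sparse graph with `D + 2p - 1` labels and vertex labels at most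
`K`. -/
theorem sparse_circ {V : Type} [Fintype V] (p : ℕ) (hp : 1 ≤ p) (G : SimpleGraph V) (D K : ℕ)
    (hD : ∀ v, (G.neighborSet v).ncard ≤ D)
    (a : ℝ) (hmad : ∀ X : Finset V,
      ({e : V × V | e.1 ∈ X ∧ e.2 ∈ X ∧ G.Adj e.1 e.2}.ncard : ℝ) ≤ a * X.card)
    (ha : 34 * a * (1 + Real.log D) ≤ D) (hK : 4 * p * a < K + 1) (hKD : K ≤ D) :
    ∃ (fV : V → ℕ) (fE : Sym2 V → ℕ), (∀ v, fV v ≤ K) ∧
      (∀ e ∈ G.edgeSet, fE e < D + 2 * p - 1) ∧
      (∀ u v, G.Adj u v → fV u ≠ fV v) ∧
      (∀ u v w, G.Adj u v → G.Adj u w → v ≠ w → fE s(u, v) ≠ fE s(u, w)) ∧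
      (∀ u v, G.Adj u v → (p : ℤ) ≤ |(fV u : ℤ) - (fE s(u, v) : ℤ)| ∧
        |(fV u : ℤ) - (fE s(u, v) : ℤ)| ≤ ((D + 2 * p - 1 : ℕ) : ℤ) - p) := by
  classical
  obtain ⟨f, g, hf1, hf2, hf3, hg1, hg2, hg3⟩ := main_pK p hp D a ha
    (fun _ _ => range (D + 2 * p - 1)) (fun _ => Icc (p - 1) (p - 1 + K)) (fun _ _ => rfl)
    (fun v => by
      rw [Nat.card_Icc]
      have e : p - 1 + K + 1 - (p - 1) = K + 1 := by omega
      rw [e]
      push_cast
      exact hK) _ G rfl (fun v => by rw [dg_eq_ncard]; exact hD v)
    (dens_of_ncard G a hmad) (fun u v _ => by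
      rw [card_range]
      omega)
  let sh : ℕ → ℕ := fun l => if p - 1 ≤ l then l - (p - 1) else l + (D + 2 * p - 1) - (p - 1)
  let ψ : V → V → ℕ := fun u v => if G.Adj u v then sh (f u v) else 0
  have hψ : ∀ u v, ψ u v = ψ v u := fun u v => by
    by_cases h : G.Adj u v
    · simp only [ψ, if_pos h, if_pos h.symm, hf1 u v h]
    · simp only [ψ, if_neg h, if_neg (fun h' => h (SimpleGraph.Adj.symm h'))]
  have hψ2 : ∀ u v, G.Adj u v → ψ u v = sh (f u v) := fun u v h => if_pos h
  have hfr : ∀ u v, G.Adj u v → f u v < D + 2 * p - 1 := fun u v h => mem_range.1 (hf2 u v h)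
  have hgr : ∀ v, p - 1 ≤ g v ∧ g v ≤ p - 1 + K := fun v => mem_Icc.1 (hg1 v)
  refine ⟨fun v => g v - (p - 1), Sym2.lift ⟨ψ, hψ⟩, ?_, ?_, ?_, ?_, ?_⟩
  · intro v
    have := hgr v
    dsimp only
    omega
  · intro e
    induction e using Sym2.ind with
    | _ u v =>
      intro he
      rw [SimpleGraph.mem_edgeSet] at he
      rw [Sym2.lift_mk]
      show ψ u v < _
      rw [hψ2 u v he]
      have := hfr u v he
      simp only [sh]
      split_ifs <;> omega
  · intro u v h
    have h1 := hg2 u v h
    have h2 := hgr u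
    have h3 := hgr v
    dsimp only
    omega
  · intro u v w hv hw hvw
    rw [Sym2.lift_mk, Sym2.lift_mk]
    show ψ u v ≠ ψ u w
    rw [hψ2 u v hv, hψ2 u w hw]
    have h1 := hf3 u v w hv hw hvw
    have h2 := hfr u v hv
    have h3 := hfr u w hw
    simp only [sh]
    split_ifs <;> omega
  · intro u v h
    rw [Sym2.lift_mk]
    show (p : ℤ) ≤ |((g u - (p - 1) : ℕ) : ℤ) - (ψ u v : ℤ)| ∧
      |((g u - (p - 1) : ℕ) : ℤ) - (ψ u v : ℤ)| ≤ _
    rw [hψ2 u v h, le_abs, abs_le]
    have h1 := hg3 u v h
    unfold Pool.Agent.H162R2.Sparse.Far at h1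
    have h2 := hfr u v h
    have h3 := hgr u
    simp only [sh]
    split_ifs <;> omega

end Pool.Agent.Y423.HY
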