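import Pool.Agent.Y423.HY.Zero

set_option autoImplicit false

/-!
Circular (p,1)-total labellings of a product from such a labelling of one factor with few vertex
labels.
-/

namespace Pool.Agent.Y423.HY

open SimpleGraph Finset Pool.Agent.H238R2.HY

/-- `e` is in the window `[v - p + 1, v + K + p - 1]` on a circle with `M` points -/
def Win (M K p v e : ℕ) : Prop :=
  (v + 1 ≤ e + p ∧ e + 1 ≤ v + K + p) ∨ e + M + 1 ≤ v + K + p ∨ v + M + 1 ≤ e + p

instance (M K p v e : ℕ) : Decidable (Win M K p v e) := by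
  unfold Win
  infer_instance

theorem card_win (M K p v : ℕ) (hp : 1 ≤ p) (hv : v < M) :
    ((range M).filter (fun e => Win M K p v e)).card ≤ K + 2 * p - 1 := by
  have h := card_le_card_of_injOn (s := (range M).filter (fun e => Win M K p v e))
    (t := range (K + 2 * p - 1))
    (fun e => if v + 1 ≤ e + p ∧ e + 1 ≤ v + K + p then e + p - 1 - v else
      if e + M + 1 ≤ v + K + p then e + M + p - 1 - v else e + p - 1 - v - M) (by
    intro e he
    rw [mem_coe, mem_filter, mem_range] at he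
    obtain ⟨h1, h2⟩ := he
    rw [mem_coe, mem_range]
    unfold Win at h2
    dsimp only
    split_ifs with h3 h4 <;> omega) (by
    intro e he e' he' h
    rw [mem_coe, mem_filter, mem_range] at he he'
    obtain ⟨h1, h2⟩ := he
    obtain ⟨h1', h2'⟩ := he'
    unfold Win at h2 h2'
    dsimp only at h
    split_ifs at h with h3 h4 h5 h6 h7 h8 h9 <;> omega)
  rwa [card_range] at h

theorem win_far {M K p v e b : ℕ} (hv : v < M) (he : e < M) (hb : b ≤ K) (hKM : K + 2 * p ≤ M + 1)
    (hp : 1 ≤ p) (h : ¬ Win M K p v e) :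
    (p : ℤ) ≤ |((red M (v + b) : ℕ) : ℤ) - (e : ℤ)| ∧
      |((red M (v + b) : ℕ) : ℤ) - (e : ℤ)| ≤ (M : ℤ) - p := by
  unfold Win at h
  unfold red
  rw [le_abs, abs_le]
  split_ifs <;> omega

theorem win_edge {M N K p v e : ℕ} (hN : N ≤ M) (hv : v < N) (he : e < N) (hp : 1 ≤ p)
    (h1 : ((p + K : ℕ) : ℤ) ≤ |(v : ℤ) - (e : ℤ)|)
    (h2 : |(v : ℤ) - (e : ℤ)| ≤ (N : ℤ) - ((p + K : ℕ) : ℤ)) : ¬ Win M K p v e := by
  rw [le_abs] at h1
  rw [abs_le] at h2
  unfold Win
  omega

/-- The position of the label `l` of the small labelling in the fibre of a vertex with label `v`;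
`g` gives the free labels. -/
def pos (MB M K p v : ℕ) (g : ℕ → ℕ) (l : ℕ) : ℕ :=
  if l < K + p then red M (v + l) else
    if l + p ≤ MB then g (l - (K + p)) else red M (v + l + (M - MB))

theorem trans {W X : Type} [Finite W] [Finite X] (A : SimpleGraph W) (B : SimpleGraph X)
    (p K MB N d : ℕ) (hp : 1 ≤ p) (hK : K + 2 * p ≤ MB + 1) (fV : W → ℕ) (fE : Sym2 W → ℕ)
    (a1 : ∀ v, fV v < N) (a2 : ∀ e ∈ A.edgeSet, fE e < N)
    (a3 : ∀ u v, A.Adj u v → fV u ≠ fV v)
    (a4 : ∀ u v w, A.Adj u v → A.Adj u w → v ≠ w → fE s(u, v) ≠ fE s(u, w))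
    (a5 : ∀ u v, A.Adj u v → ((p + K : ℕ) : ℤ) ≤ |(fV u : ℤ) - (fE s(u, v) : ℤ)| ∧
      |(fV u : ℤ) - (fE s(u, v) : ℤ)| ≤ (N : ℤ) - ((p + K : ℕ) : ℤ))
    (hd : ∀ x, (A.neighborSet x).ncard ≤ d) (hN : N ≤ MB + d) (hV : X → ℕ) (hE : Sym2 X → ℕ)
    (b1 : ∀ v, hV v ≤ K) (b2 : ∀ e ∈ B.edgeSet, hE e < MB)
    (b3 : ∀ u v, B.Adj u v → hV u ≠ hV v)
    (b4 : ∀ u v w, B.Adj u v → B.Adj u w → v ≠ w → hE s(u, v) ≠ hE s(u, w))
    (b5 : ∀ u v, B.Adj u v → (p : ℤ) ≤ |(hV u : ℤ) - (hE s(u, v) : ℤ)| ∧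
      |(hV u : ℤ) - (hE s(u, v) : ℤ)| ≤ (MB : ℤ) - p) :
    CircLab (A.boxProd B) p (MB + d) := by
  classical
  have := Fintype.ofFinite W
  set M := MB + d with hM
  have hvM : ∀ x, fV x < M := fun x => (a1 x).trans_le hN
  have heM : ∀ x y, A.Adj x y → fE s(x, y) < M := fun x y h => (a2 _ h).trans_le hN
  have hKM : K + 2 * p ≤ M + 1 := by omega
  -- the free labels
  let Fr : W → Finset ℕ := fun x => (range M) \ ((range M).filter (fun e => Win M K p (fV x) e) ∪
    (A.neighborFinset x).image (fun y => fE s(x, y)))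
  have hcard : ∀ x, MB + 1 - (K + 2 * p) ≤ (Fr x).card := by
    intro x
    refine le_trans ?_ (le_card_sdiff ((range M).filter (fun e => Win M K p (fV x) e) ∪
      (A.neighborFinset x).image (fun y => fE s(x, y))) (range M))
    have e2 := card_union_le ((range M).filter (fun e => Win M K p (fV x) e))
      ((A.neighborFinset x).image (fun y => fE s(x, y)))
    have e3 := card_win M K p (fV x) hp (hvM x)
    have e4 := card_image_le (s := A.neighborFinset x) (f := fun y => fE s(x, y))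
    have e5 : (A.neighborFinset x).card ≤ d := by
      have h := hd x
      rwa [Set.ncard_eq_toFinset_card', ← SimpleGraph.neighborFinset_def] at h
    rw [card_range]
    omega
  have hg : ∀ x, ∃ g : ℕ → ℕ, (∀ i < MB + 1 - (K + 2 * p), g i ∈ Fr x) ∧
      ∀ i < MB + 1 - (K + 2 * p), ∀ j < MB + 1 - (K + 2 * p), g i = g j → i = j := by
    intro x
    let e := (Fr x).orderEmbOfCardLe (hcard x)
    refine ⟨fun i => if h : i < MB + 1 - (K + 2 * p) then e ⟨i, h⟩ else 0, ?_, ?_⟩
    · intro i hi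
      simp only [dif_pos hi]
      exact orderEmbOfCardLe_mem _ _ _
    · intro i hi j hj h
      simp only [dif_pos hi, dif_pos hj] at h
      exact Fin.mk.inj_iff.1 (e.injective h)
  choose g g1 g2 using hg
  have g3 : ∀ x, ∀ i < MB + 1 - (K + 2 * p), g x i < M ∧ ¬ Win M K p (fV x) (g x i) ∧
      ∀ y, A.Adj x y → fE s(x, y) ≠ g x i := by
    intro x i hi
    have h := g1 x i hi
    rw [mem_sdiff, mem_union, not_or, mem_range, mem_filter, mem_range] at h
    refine ⟨h.1, fun h' => h.2.1 ⟨h.1, h'⟩, fun y hy h' => h.2.2 ?_⟩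
    exact mem_image.2 ⟨y, (A.mem_neighborFinset x y).2 hy, h'⟩
  -- the labels of the edges of the fibres
  have hpM : ∀ x l, l < MB → pos MB M K p (fV x) (g x) l < M := by
    intro x l hl
    have := hvM x
    unfold pos
    split_ifs with h1 h2
    · exact red_lt (by omega)
    · exact (g3 x _ (by omega)).1
    · exact red_lt (by omega)
  have hpos_inj : ∀ x l l', l < MB → l' < MB →
      pos MB M K p (fV x) (g x) l = pos MB M K p (fV x) (g x) l' → l = l' := by
    intro x l l' hl hl' h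
    have hv := hvM x
    unfold pos at h
    split_ifs at h with h1 h2 h3 h4 h5 h6 h7
    · unfold red at h
      split_ifs at h <;> omega
    · exfalso
      have h8 := (g3 x (l' - (K + p)) (by omega)).2.1
      rw [← h] at h8
      apply h8
      unfold Win red
      split_ifs <;> omega
    · unfold red at h
      split_ifs at h <;> omega
    · exfalso
      have h8 := (g3 x (l - (K + p)) (by omega)).2.1
      rw [h] at h8
      apply h8
      unfold Win red
      split_ifs <;> omega
    · have := g2 x _ (by omega) _ (by omega) h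
      omega
    · exfalso
      have h8 := (g3 x (l - (K + p)) (by omega)).2.1
      rw [h] at h8
      apply h8
      unfold Win red
      split_ifs <;> omega
    · unfold red at h
      split_ifs at h <;> omega
    · exfalso
      have h8 := (g3 x (l' - (K + p)) (by omega)).2.1
      rw [← h] at h8
      apply h8
      unfold Win red
      split_ifs <;> omega
    · unfold red at h
      split_ifs at h <;> omega
  have hpos_edge : ∀ x y l, l < MB → A.Adj x y →
      fE s(x, y) ≠ pos MB M K p (fV x) (g x) l := by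
    intro x y l hl hxy h
    have hv := hvM x
    have hw := win_edge hN (a1 x) (a2 _ hxy) hp (a5 x y hxy).1 (a5 x y hxy).2
    unfold pos at h
    split_ifs at h with h1 h2
    · apply hw
      rw [h]
      unfold Win red
      split_ifs <;> omega
    · exact (g3 x _ (by omega)).2.2 y hxy h
    · apply hw
      rw [h]
      unfold Win red
      split_ifs <;> omega
  have hpos_far : ∀ x b l, l < MB → b ≤ K → (p : ℤ) ≤ |(b : ℤ) - (l : ℤ)| →
      |(b : ℤ) - (l : ℤ)| ≤ (MB : ℤ) - p →
      (p : ℤ) ≤ |((red M (fV x + b) : ℕ) : ℤ) - (pos MB M K p (fV x) (g x) l : ℕ)| ∧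
      |((red M (fV x + b) : ℕ) : ℤ) - (pos MB M K p (fV x) (g x) l : ℕ)| ≤ (M : ℤ) - p := by
    intro x b l hl hb h1 h2
    have hv := hvM x
    unfold pos
    split_ifs with h3 h4
    · rw [le_abs] at h1 ⊢
      rw [abs_le] at h2 ⊢
      unfold red
      split_ifs <;> omega
    · exact win_far hv (g3 x _ (by omega)).1 hb hKM hp (g3 x _ (by omega)).2.1
    · rw [le_abs] at h1 ⊢
      rw [abs_le] at h2 ⊢
      unfold red
      split_ifs <;> omega
  -- the labelling
  let φ : W × X → W × X → ℕ := fun u v => if u.2 = v.2 then (if A.Adj u.1 v.1 then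
    fE s(u.1, v.1) else 0) else (if B.Adj u.2 v.2 ∧ u.1 = v.1 then
    pos MB M K p (fV u.1) (g u.1) (hE s(u.2, v.2)) else 0)
  have hφ : ∀ u v, φ u v = φ v u := by
    intro u v
    simp only [φ]
    by_cases h : u.2 = v.2
    · rw [if_pos h, if_pos h.symm]
      by_cases h' : A.Adj u.1 v.1
      · rw [if_pos h', if_pos h'.symm, Sym2.eq_swap]
      · rw [if_neg h', if_neg (fun k => h' (SimpleGraph.Adj.symm k))]
    · rw [if_neg h, if_neg (Ne.symm h)]
      by_cases h' : B.Adj u.2 v.2 ∧ u.1 = v.1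
      · rw [if_pos h', if_pos ⟨h'.1.symm, h'.2.symm⟩, h'.2, Sym2.eq_swap]
      · rw [if_neg h', if_neg (fun k => h' ⟨SimpleGraph.Adj.symm k.1, k.2.symm⟩)]
  have hφA : ∀ x x' b, A.Adj x x' → φ (x, b) (x', b) = fE s(x, x') := fun x x' b h => by
    simp only [φ, if_true, if_pos h]
  have hφB : ∀ x b b', B.Adj b b' → φ (x, b) (x, b') =
      pos MB M K p (fV x) (g x) (hE s(b, b')) := fun x b b' h => by
    simp only [φ, if_neg h.ne, and_true, if_pos h]
  refine ⟨fun w => red M (fV w.1 + hV w.2), Sym2.lift ⟨φ, hφ⟩, ?_, ?_, ?_, ?_, ?_⟩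
  · rintro ⟨x, b⟩
    have := hvM x
    have := b1 b
    exact red_lt (by dsimp only; omega)
  · intro e
    induction e using Sym2.ind with
    | _ u v =>
      obtain ⟨x, b⟩ := u
      obtain ⟨x', b'⟩ := v
      intro he
      rw [mem_edgeSet, boxProd_adj] at he
      rw [Sym2.lift_mk]
      dsimp only at he ⊢
      rcases he with ⟨h, h'⟩ | ⟨h, h'⟩
      · subst h'
        rw [hφA x x' b h]
        exact heM x x' h
      · subst h'
        rw [hφB x b b' h]
        exact hpM x _ (b2 _ h)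
  · rintro ⟨x, b⟩ ⟨x', b'⟩ h e
    rw [boxProd_adj] at h
    dsimp only at h e
    have h1 := hvM x
    have h2 := hvM x'
    have h3 := b1 b
    have h4 := b1 b'
    rcases h with ⟨h, h'⟩ | ⟨h, h'⟩
    · subst h'
      exact a3 x x' h (red_inj h1 h2 (by omega) e)
    · subst h'
      rw [add_comm (fV x), add_comm (fV x)] at e
      exact b3 b b' h (red_inj (by omega) (by omega) h1 e)
  · rintro ⟨x, b⟩ ⟨x', b'⟩ ⟨x'', b''⟩ h k hne
    rw [boxProd_adj] at h k
    rw [Sym2.lift_mk, Sym2.lift_mk]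
    dsimp only at h k ⊢
    rcases h with ⟨h, h'⟩ | ⟨h, h'⟩
    · subst h'
      rcases k with ⟨k, k'⟩ | ⟨k, k'⟩
      · subst k'
        rw [hφA x x' b h, hφA x x'' b k]
        exact a4 x x' x'' h k (fun e => hne (by rw [e]))
      · subst k'
        rw [hφA x x' b h, hφB x b b'' k]
        exact hpos_edge x x' _ (b2 _ k) h
    · subst h'
      rcases k with ⟨k, k'⟩ | ⟨k, k'⟩
      · subst k'
        rw [hφA x x'' b k, hφB x b b' h]
        exact (hpos_edge x x'' _ (b2 _ h) k).symm
      · subst k'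
        rw [hφB x b b' h, hφB x b b'' k]
        exact fun e => b4 b b' b'' h k (fun e => hne (by rw [e]))
          (hpos_inj x _ _ (b2 _ h) (b2 _ k) e)
  · rintro ⟨x, b⟩ ⟨x', b'⟩ h
    rw [boxProd_adj] at h
    rw [Sym2.lift_mk]
    dsimp only at h ⊢
    rcases h with ⟨h, h'⟩ | ⟨h, h'⟩
    · subst h'
      rw [hφA x x' b h]
      exact win_far (hvM x) (heM x x' h) (b1 b) hKM hp
        (win_edge hN (a1 x) (a2 _ h) hp (a5 x x' h).1 (a5 x x' h).2)
    · subst h'
      rw [hφB x b b' h]
      exact hpos_far x (hV b) _ (b2 _ h) (b1 b) (b5 b b' h).1 (b5 b b' h).2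

end Pool.Agent.Y423.HY
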