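import Pool.Agent.Y423.HY.Circ
import Pool.Agent.Y423.HY.Trans
import Pool.Agent.Y423.HY.SparseK

set_option autoImplicit false

/-!
The error term of the starting results on circular labellings, and the lower bound of the starting
result Asymptotic.
-/

namespace Pool.Agent.Y423.HY

open SimpleGraph Finset Pool.Agent.H238R2.HY

/-- Every graph of maximum degree `D` has a circular `(p,1)`-total labelling with at most
`D + err D p` labels (starting results LogarithmicError and Asymptotic). -/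
noncomputable def err (D p : ℕ) : ℝ :=
  min (66 * p + 524 * Real.log (D + 1))
    (2 * p + 1 + 8 * ((D : ℝ) ^ (2 / 3 : ℝ) * Real.log D ^ (1 / 3 : ℝ)))

theorem ncard_deg {V : Type} [Fintype V] (G : SimpleGraph V) [DecidableRel G.Adj] (v : V) :
    (G.neighborSet v).ncard = G.degree v := by
  rw [← card_neighborSet_eq_degree, ← Nat.card_eq_fintype_card]
  rfl

theorem err_mono {D D' : ℕ} (h : D ≤ D') (p : ℕ) : err D p ≤ err D' p := by
  have hr : (D : ℝ) ≤ D' := by exact_mod_cast h
  have h0 : (0 : ℝ) ≤ D := Nat.cast_nonneg _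
  unfold err
  refine min_le_min ?_ ?_
  · have : Real.log ((D : ℝ) + 1) ≤ Real.log (D' + 1) :=
      Real.log_le_log (by linarith) (by linarith)
    linarith
  · have hl : 0 ≤ Real.log D := Real.log_natCast_nonneg D
    have hl' : 0 ≤ Real.log D' := Real.log_natCast_nonneg D'
    rcases Nat.eq_zero_or_pos D with rfl | hD
    · have h1 : ((0 : ℕ) : ℝ) ^ (2 / 3 : ℝ) = 0 := by
        rw [Nat.cast_zero]
        exact Real.zero_rpow (by norm_num)
      rw [h1, zero_mul]
      have : 0 ≤ (D' : ℝ) ^ (2 / 3 : ℝ) * Real.log D' ^ (1 / 3 : ℝ) := by positivity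
      linarith
    · have hD1 : (0 : ℝ) < D := by exact_mod_cast hD
      have h1 : (D : ℝ) ^ (2 / 3 : ℝ) ≤ (D' : ℝ) ^ (2 / 3 : ℝ) :=
        Real.rpow_le_rpow h0 hr (by norm_num)
      have h2 : Real.log D ^ (1 / 3 : ℝ) ≤ Real.log D' ^ (1 / 3 : ℝ) :=
        Real.rpow_le_rpow hl (Real.log_le_log hD1 hr) (by norm_num)
      have h3 : (D : ℝ) ^ (2 / 3 : ℝ) * Real.log D ^ (1 / 3 : ℝ) ≤
          (D' : ℝ) ^ (2 / 3 : ℝ) * Real.log D' ^ (1 / 3 : ℝ) :=
        mul_le_mul h1 h2 (by positivity) (by positivity)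
      linarith

theorem err_ge (D p : ℕ) : (2 * p : ℝ) ≤ err D p := by
  unfold err
  have hp : (0 : ℝ) ≤ p := Nat.cast_nonneg _
  have hD : (0 : ℝ) ≤ D := Nat.cast_nonneg _
  have hl : 0 ≤ Real.log D := Real.log_natCast_nonneg D
  have h1 : 0 ≤ (D : ℝ) ^ (2 / 3 : ℝ) * Real.log D ^ (1 / 3 : ℝ) := by positivity
  have h2 : 0 ≤ Real.log ((D : ℝ) + 1) := Real.log_nonneg (by linarith)
  exact le_min (by linarith) (by linarith)

theorem circ_err {V : Type} [Fintype V] (G : SimpleGraph V) [DecidableRel G.Adj] (p : ℕ)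
    (hp : 1 ≤ p) : ∃ N : ℕ, (N : ℝ) ≤ G.maxDegree + err G.maxDegree p ∧ CircLab G p N := by
  obtain ⟨N1, h1, h1'⟩ := circ_log G p hp
  obtain ⟨N2, h2, h2'⟩ := Pool.Agent.H238R2.HY.main G p hp
  unfold err
  rcases min_choice (66 * (p : ℝ) + 524 * Real.log ((G.maxDegree : ℝ) + 1))
    (2 * p + 1 + 8 * ((G.maxDegree : ℝ) ^ (2 / 3 : ℝ) * Real.log G.maxDegree ^ (1 / 3 : ℝ)))
    with h | h
  · rw [h]
    exact ⟨N1, by linarith, h1'⟩
  · rw [h]
    refine ⟨N2, ?_, h2'⟩
    unfold Pool.Agent.H238R2.HY.err at h2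
    linarith

theorem circ_lower {V : Type} [Fintype V] (G : SimpleGraph V) [DecidableRel G.Adj] (p N : ℕ)
    (hD : 1 ≤ G.maxDegree) (h : CircLab G p N) : G.maxDegree + 2 * p ≤ N + 1 := by
  classical
  obtain ⟨fV, fE, h1, h2, h3, h4, h5⟩ := h
  have hne : Nonempty V := by
    by_contra hne
    rw [not_nonempty_iff] at hne
    have : G.maxDegree = 0 := by
      rw [SimpleGraph.maxDegree]
      simp
    omega
  obtain ⟨v, hv⟩ := G.exists_maximal_degree_vertex
  have hinj : Set.InjOn (fun u => (fE s(v, u) + N - fV v) % N) (G.neighborFinset v : Set V) := by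
    intro u hu u' hu' he
    rw [mem_coe, SimpleGraph.mem_neighborFinset] at hu hu'
    by_contra hne
    have e1 := h2 s(v, u) hu
    have e2 := h2 s(v, u') hu'
    have e3 := h1 v
    refine h4 v u u' hu hu' hne ?_
    simp only at he
    have e4 : fE s(v, u) + (N - fV v) ≡ fE s(v, u') + (N - fV v) [MOD N] := by
      have a1 : fE s(v, u) + (N - fV v) = fE s(v, u) + N - fV v := by omega
      have a2 : fE s(v, u') + (N - fV v) = fE s(v, u') + N - fV v := by omega
      rw [a1, a2]; exact he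
    exact Nat.ModEq.eq_of_lt_of_lt (Nat.ModEq.add_right_cancel' _ e4) e1 e2
  have hmaps : ∀ u ∈ G.neighborFinset v, (fE s(v, u) + N - fV v) % N ∈ Icc p (N - p) := by
    intro u hu
    rw [SimpleGraph.mem_neighborFinset] at hu
    have e1 := h2 s(v, u) hu
    have e3 := h1 v
    obtain ⟨e4, e5⟩ := h5 v u hu
    rw [mem_Icc]
    rcases le_total (fV v) (fE s(v, u)) with hle | hle
    · have e6 : |(fV v : ℤ) - (fE s(v, u) : ℤ)| = (fE s(v, u) : ℤ) - fV v := by
        rw [abs_of_nonpos (by have : (fV v : ℤ) ≤ fE s(v, u) := by exact_mod_cast hle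
                              linarith)]
        ring
      rw [e6] at e4 e5
      have e7 : fE s(v, u) + N - fV v = (fE s(v, u) - fV v) + N := by omega
      rw [e7, Nat.add_mod_right, Nat.mod_eq_of_lt (by omega)]
      omega
    · have e6 : |(fV v : ℤ) - (fE s(v, u) : ℤ)| = (fV v : ℤ) - fE s(v, u) := by
        rw [abs_of_nonneg (by have : (fE s(v, u) : ℤ) ≤ fV v := by exact_mod_cast hle
                              linarith)]
      rw [e6] at e4 e5
      rcases Nat.eq_or_lt_of_le hle with heq | hlt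
      · have e7 : fE s(v, u) + N - fV v = 0 + N := by omega
        rw [e7, Nat.add_mod_right, Nat.zero_mod]
        omega
      · rw [Nat.mod_eq_of_lt (by omega)]
        omega
  have hcard := Finset.card_le_card_of_injOn _ hmaps hinj
  rw [SimpleGraph.card_neighborFinset_eq_degree, ← hv, Nat.card_Icc] at hcard
  have hp : 2 * p ≤ N := by
    have hpos : 0 < (G.neighborFinset v).card := by
      rw [SimpleGraph.card_neighborFinset_eq_degree, ← hv]; exact hD
    obtain ⟨u, hu⟩ := Finset.card_pos.1 hpos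
    have := mem_Icc.1 (hmaps u hu)
    omega
  omega


end Pool.Agent.Y423.HY
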