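import Pool.Agent.Y423.HY.Sel

set_option autoImplicit false

/-!
The Havet–Yu conjecture for families: `I` are the factors of the arbitrary part, `K` the bipartite
factors, `J` the factors with a suitable matching.
-/

namespace Pool.Agent.Y423.HY

open SimpleGraph Finset Pool.Agent.Y423.LA Pool.Agent.H238R2.HY

theorem colorable_pi {ι : Type} [Fintype ι] {V : ι → Type} (G : ∀ i, SimpleGraph (V i))
    (h : ∀ i, (G i).Colorable 2) : (piG G).Colorable 2 := by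
  obtain ⟨f, h1, -⟩ := MC.pi (fun i => MC.of_colorable (G i) 1 le_rfl (h i))
  have hc : Fintype.card (Col 1) = 2 := by
    rw [← card_univ, card_col]
  exact hc ▸ (Coloring.mk f (fun {u v} huv => h1 u v huv)).colorable

open Classical in
theorem fam {ι : Type} [Fintype ι] {V : ι → Type} [∀ i, Finite (V i)]
    (G N : ∀ i, SimpleGraph (V i)) (p q : ℕ) (d : ι → ℕ) (I K J : Finset ι)
    (hIK : Disjoint I K) (hIJ : Disjoint I J) (hKJ : Disjoint K J) (hp : 1 ≤ p) (hq : 1 ≤ q)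
    (hd : ∀ i v, ((G i).neighborSet v).ncard ≤ d i) (hcol : ∀ i, i ∉ I → (G i).Colorable (2 * q))
    (hK : ∀ i ∈ K, (G i).Colorable 2)
    (hd1 : ∀ i ∈ J, 1 ≤ d i) (hN : ∀ i ∈ J, N i ≤ G i)
    (hN1 : ∀ i ∈ J, ∀ v, ((N i).neighborSet v).ncard ≤ 1)
    (hN2 : ∀ i ∈ J, ∀ v, ((G i \ N i).neighborSet v).ncard + 1 ≤ d i)
    (hJ : ∀ i ∈ J, d i ≤ q ∨ ∃ r, (G i).Colorable r ∧ r * (r - 1) ≤ 2 * q)
    (h0 : I = ∅ ∨ (p + 1 + ∑ i ∈ I, d i ≤ 2 * q ∧ ∃ N0 ≤ 2 * q,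
      CircLab (piG (fun i : {i // i ∈ I} => G i.1)) (p + 1) N0))
    (hcond : (1 ≤ ∑ i ∈ K, d i ∧ 2 * q ≤ p + ∑ i ∈ I, d i + ∑ i ∈ K, d i + J.card) ∨
      2 * q + 1 ≤ p + ∑ i ∈ I, d i + J.card) :
    Lab (piG G) p (∑ i, d i + 2 * p - 1) := by
  set A := piG (fun i : {i // i ∈ I} => G i.1) with hA
  set B := piG (fun j : {j : {i // i ∉ I} // j.1 ∈ K} => G j.1.1) with hB
  set R := piG (fun j : {j : {i // i ∉ I} // ¬ j.1 ∈ K} => G j.1.1) with hR
  have hsplit : ∃ e, piG G = (A.boxProd (B.boxProd R)).comap e ∧ Function.Bijective e := by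
    refine ⟨_, ?_, Equiv.bijective ((Equiv.piEquivPiSubtypeProd (fun i => i ∈ I) V).trans
      (Equiv.prodCongr (Equiv.refl _) (Equiv.piEquivPiSubtypeProd
        (fun j : {i // i ∉ I} => j.1 ∈ K) (fun j => V j.1))))⟩
    rw [piG_split G (fun i => i ∈ I), piG_split (fun i : {i // ¬ i ∈ I} => G i.1)
      (fun j : {i // i ∉ I} => j.1 ∈ K), box_comap]
    rfl
  obtain ⟨e, he, hbij⟩ := hsplit
  rw [he]
  refine Lab.comap (Equiv.ofBijective e hbij) ?_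
  -- the numbers
  set J' : Finset {j : {i // i ∉ I} // ¬ j.1 ∈ K} := univ.filter (fun j => j.1.1 ∈ J) with hJ'
  have hJ'm : ∀ j, j ∈ J' ↔ j.1.1 ∈ J := fun j => by simp [hJ']
  have hcard : J'.card = J.card := by
    refine card_bij (fun j _ => j.1.1) (fun j hj => (hJ'm j).1 hj) ?_ ?_
    · intro j _ j' _ h
      exact Subtype.ext (Subtype.ext h)
    · intro i hi
      exact ⟨⟨⟨i, fun h => disjoint_left.1 hIJ h hi⟩, fun h => disjoint_left.1 hKJ h hi⟩,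
        (hJ'm _).2 hi, rfl⟩
  set dB := ∑ j : {j : {i // i ∉ I} // j.1 ∈ K}, d j.1.1 with hdB
  have hdB' : dB = ∑ i ∈ K, d i := by
    refine sum_bij (fun j _ => j.1.1) (fun j _ => j.2) ?_ ?_ (fun _ _ => rfl)
    · intro j _ j' _ h
      exact Subtype.ext (Subtype.ext h)
    · intro i hi
      exact ⟨⟨⟨i, fun h => disjoint_left.1 hIK h hi⟩, hi⟩, mem_univ _, rfl⟩
  have hdA : ∑ i : {i // i ∈ I}, d i.1 = ∑ i ∈ I, d i := by
    refine sum_bij (fun j _ => j.1) (fun j _ => j.2) ?_ ?_ (fun _ _ => rfl)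
    · intro j _ j' _ h
      exact Subtype.ext h
    · intro i hi
      exact ⟨⟨i, hi⟩, mem_univ _, rfl⟩
  have htot : ∑ i : {i // i ∈ I}, d i.1 + (dB + ∑ j : {j : {i // i ∉ I} // ¬ j.1 ∈ K}, d j.1.1) =
      ∑ i, d i := by
    have e1 := Fintype.sum_subtype_add_sum_subtype (fun i => i ∈ I) d
    have e2 := Fintype.sum_subtype_add_sum_subtype (fun j : {i // i ∉ I} => j.1 ∈ K)
      (fun j => d j.1)
    rw [hdB, e2]
    refine Eq.trans ?_ e1
    congr 1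
    exact Finset.sum_congr (by ext; simp) (fun _ _ => rfl)
  have hBc : B.Colorable 2 := colorable_pi _ (fun j => hK j.1.1 j.2)
  have hBd : ∀ x, (B.neighborSet x).ncard ≤ dB := fun x => by
    rw [hB, piG_deg]
    exact sum_le_sum fun j _ => hd _ _
  rcases h0 with h0 | ⟨h0, N0, hN0, hcirc⟩
  · have hA0 : A = ⊥ := piG_bot _ (fun ⟨i, hi⟩ => by
      have h := hi
      rw [h0] at h
      exact absurd h (notMem_empty i))
    have hI0 : ∑ i ∈ I, d i = 0 := by rw [h0, sum_empty]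
    rw [hA0]
    refine Lab.bot_box ?_
    have := hy_main B (fun j : {j : {i // i ∉ I} // ¬ j.1 ∈ K} => G j.1.1)
      (fun j => N j.1.1) p q dB (fun j => d j.1.1) J' hp hq hBc hBd (fun j => hd j.1.1)
      (fun j => hcol _ j.1.2) (fun j hj => hd1 _ ((hJ'm j).1 hj)) (fun j hj => hN _ ((hJ'm j).1 hj))
      (fun j hj => hN1 _ ((hJ'm j).1 hj)) (fun j hj => hN2 _ ((hJ'm j).1 hj))
      (fun j hj => hJ _ ((hJ'm j).1 hj)) (by rw [hcard]; omega)
    rw [hdA, hI0, zero_add] at htot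
    rwa [htot] at this
  · obtain ⟨m, hm⟩ : ∃ m, m + p + 1 + ∑ i ∈ I, d i = 2 * q :=
      ⟨2 * q - (p + 1 + ∑ i ∈ I, d i), by omega⟩
    obtain ⟨C, c1, c2, c3, t, c4, c5⟩ := sel B (fun j : {j : {i // i ∉ I} // ¬ j.1 ∈ K} => G j.1.1)
      (fun j => N j.1.1) q dB m (fun j => d j.1.1) J' hq hBc hBd (fun j => hd j.1.1)
      (fun j => hcol _ j.1.2) (fun j hj => hd1 _ ((hJ'm j).1 hj)) (fun j hj => hN _ ((hJ'm j).1 hj))
      (fun j hj => hN1 _ ((hJ'm j).1 hj)) (fun j hj => hN2 _ ((hJ'm j).1 hj))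
      (fun j hj => hJ _ ((hJ'm j).1 hj)) (by rw [hcard]; omega)
    have h1 := crit0 A (B.boxProd R) C p q m t (∑ i ∈ I, d i) hp hm N0 hN0 hcirc (fun x => by
      rw [hA, piG_deg, ← hdA]
      exact sum_le_sum fun i _ => hd _ _) c1 c2 c3 c4
    have e1 : ∑ i ∈ I, d i + m + t + 2 * p - 1 = ∑ i, d i + 2 * p - 1 := by omega
    rwa [e1] at h1

end Pool.Agent.Y423.HY
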