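import Pool.Agent.Y423.HY.Pair

set_option autoImplicit false

/-!
The Havet–Yu conjecture for Cartesian products.
-/

namespace Pool.Agent.Y423.HY

open SimpleGraph Finset Pool.Agent.Y423.LA

theorem hy_main {X ι : Type} [Fintype ι] {V : ι → Type} [Finite X] [∀ i, Finite (V i)]
    (B : SimpleGraph X) (G N : ∀ i, SimpleGraph (V i)) (p q D : ℕ) (d : ι → ℕ) (J : Finset ι)
    (hp : 1 ≤ p) (hq : 1 ≤ q) (hB : B.Colorable 2) (hD : ∀ x, (B.neighborSet x).ncard ≤ D)
    (hd : ∀ i v, ((G i).neighborSet v).ncard ≤ d i) (hcol : ∀ i, (G i).Colorable (2 * q))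
    (hd1 : ∀ i ∈ J, 1 ≤ d i) (hN : ∀ i ∈ J, N i ≤ G i)
    (hN1 : ∀ i ∈ J, ∀ v, ((N i).neighborSet v).ncard ≤ 1)
    (hN2 : ∀ i ∈ J, ∀ v, ((G i \ N i).neighborSet v).ncard + 1 ≤ d i)
    (hJ : ∀ i ∈ J, d i ≤ q ∨ ∃ r, (G i).Colorable r ∧ r * (r - 1) ≤ 2 * q)
    (hcond : (1 ≤ D ∧ 2 * q ≤ p + D + J.card) ∨ 2 * q + 1 ≤ p + J.card) :
    Lab (B.boxProd (piG G)) p (D + ∑ i, d i + 2 * p - 1) := by
  classical
  by_cases hpq : 2 * q ≤ p
  · obtain ⟨c, c1, c2, -⟩ := (MC.box (MC.of_two B ⊥ q hB)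
      (MC.pi (fun i => MC.of_colorable (G i) q hq (hcol i)))).nat hq
    obtain ⟨φ, μ, p1, p2, p3, -, -⟩ := vizing_miss (B.boxProd (piG G)) (D + ∑ i, d i) (fun z => by
      rw [box_deg, piG_deg]
      exact add_le_add (hD _) (sum_le_sum fun i _ => hd i _))
    refine Lab.of_fun c (fun u v => 2 * p - 1 + φ u v) (fun v => ?_) c2 (fun u v _ => ?_)
      (fun u v h => ?_) (fun u v _ => ?_) (fun u v w h h' hne => ?_)
    · have := c1 v
      omega
    · rw [p1 u v]
    · have := p2 u v h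
      omega
    · have := c1 u
      omega
    · have := p3 u v w h h' hne
      omega
  obtain ⟨m, hm⟩ : ∃ m, p + m + 1 = 2 * q := ⟨2 * q - 1 - p, by omega⟩
  obtain ⟨J', hJ', hcard⟩ := exists_subset_card_eq (s := J) (n := min J.card m) (min_le_left _ _)
  set d' : ι → ℕ := fun i => if i ∈ J' then d i - 1 else d i with hd'
  set M : ∀ i, SimpleGraph (V i) := fun i => if i ∈ J' then N i else ⊥ with hM
  have hsum : ∑ i, d' i + J'.card = ∑ i, d i := by
    have e1 : J'.card = ∑ i, if i ∈ J' then 1 else 0 := by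
      rw [sum_boole, filter_mem_eq_inter, univ_inter]
      rfl
    rw [e1, ← sum_add_distrib]
    refine sum_congr rfl fun i _ => ?_
    by_cases hi : i ∈ J'
    · have := hd1 i (hJ' hi)
      simp only [hd', if_pos hi]
      omega
    · simp only [hd', if_neg hi, add_zero]
  have hMle : ∀ i, M i ≤ G i := fun i => by
    by_cases hi : i ∈ J'
    · simp only [hM, if_pos hi]
      exact hN i (hJ' hi)
    · simp only [hM, if_neg hi]
      exact bot_le
  have hMdeg : ∀ i v, ((M i).neighborSet v).ncard ≤ if i ∈ J' then 1 else 0 := fun i v => by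
    by_cases hi : i ∈ J'
    · simp only [hM, if_pos hi]
      exact hN1 i (hJ' hi) v
    · simp only [hM, if_neg hi]
      simp
  have hrest : ∀ i v, ((G i \ M i).neighborSet v).ncard ≤ d' i := fun i v => by
    by_cases hi : i ∈ J'
    · simp only [hM, hd', if_pos hi]
      have := hN2 i (hJ' hi) v
      omega
    · simp only [hM, hd', if_neg hi, sdiff_bot]
      exact hd i v
  have hMC : ∀ i, MC (G i) (M i) q := fun i => by
    by_cases hi : i ∈ J'
    · simp only [hM, if_pos hi]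
      rcases hJ i (hJ' hi) with h | ⟨r, h, h'⟩
      · exact MC.of_deg _ _ q hq (hN i (hJ' hi)) (hN1 i (hJ' hi)) (fun v => (hd i v).trans h)
      · exact MC.of_pairs _ _ q r hq (hN i (hJ' hi)) (hN1 i (hJ' hi)) h h'
    · simp only [hM, if_neg hi]
      exact MC.of_colorable _ q hq (hcol i)
  have hpiM : ∀ x, ((piG M).neighborSet x).ncard ≤ J'.card := fun x => by
    rw [piG_deg]
    refine (sum_le_sum fun i _ => hMdeg i _).trans ?_
    rw [sum_boole, filter_mem_eq_inter, univ_inter]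
    exact le_rfl
  have hpiR : ∀ x, ((piG fun i => G i \ M i).neighborSet x).ncard ≤ ∑ i, d' i := fun x => by
    rw [piG_deg]
    exact sum_le_sum fun i _ => hrest i _
  -- the final step, given the classes of `B`
  have key : ∀ (r : ℕ) (NB : SimpleGraph X), NB ≤ B → (∀ v, (NB.neighborSet v).ncard ≤ r) →
      r + J'.card = m → r ≤ D →
      EC ((B \ NB).boxProd (piG fun i => G i \ M i)) (D - r + ∑ i, d' i) →
      Lab (B.boxProd (piG G)) p (D + ∑ i, d i + 2 * p - 1) := by
    intro r NB h1 h2 h3 h4 h5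
    obtain ⟨c, c1, c2, c3⟩ := (MC.box (MC.of_two B NB q hB) (MC.pi hMC)).nat hq
    have h6 := crit (B.boxProd (piG G)) (NB.boxProd (piG M)) p m (D - r + ∑ i, d' i) c hp
      (box_mono h1 (piG_mono hMle)) (fun v => by have := c1 v; omega) c2 c3
      (fun z => by
        rw [box_deg]
        have := h2 z.1
        have := hpiM z.2
        omega) (by
        rw [box_sdiff, piG_sdiff]
        exact h5)
    have e : m + (D - r + ∑ i, d' i) + 2 * p - 1 = D + ∑ i, d i + 2 * p - 1 := by omega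
    rwa [e] at h6
  rcases hcond with ⟨hD1, hcond⟩ | hcond
  · obtain ⟨NB, g1, g2, g3⟩ := ec_bip B hB D hD (m - J'.card) (by omega)
    refine key (m - J'.card) NB g1 g2 (by omega) (by omega) ?_
    exact EC.box (by omega) g3 hpiR
  · have hc2 : 1 < (J \ J').card := by
      have := card_sdiff_add_card_eq_card hJ'
      omega
    obtain ⟨j, hj, k, hk, hjk⟩ := one_lt_card.1 hc2
    rw [mem_sdiff] at hj hk
    have hg : ∀ l, l ∈ J → l ∉ J' → Gd (G l \ M l) (d' l) := fun l hl hl' => by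
      simp only [hM, hd', if_neg hl', sdiff_bot]
      exact ⟨N l, hN l hl, hN1 l hl, hN2 l hl⟩
    have hec := ec_pi (fun i => G i \ M i) d' hrest j k hjk (hg j hj.1 hj.2) (hg k hk.1 hk.2)
    have hpos : 1 ≤ ∑ i, d' i := by
      have h1 : d' j ≤ ∑ i, d' i := single_le_sum (fun _ _ => Nat.zero_le _) (mem_univ j)
      have h2 : d' j = d j := if_neg hj.2
      have h3 := hd1 j hj.1
      omega
    refine key 0 ⊥ bot_le (fun v => by simp) (by omega) (by omega) ?_
    rw [sdiff_bot, Nat.sub_zero]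
    exact EC.box' hpos hec hD

end Pool.Agent.Y423.HY
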