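import Mathlib

set_option autoImplicit false

/-!
Colourings with `2q` colours in which the ends of every edge of a given matching have consecutive
colours.
-/

namespace Pool.Agent.Y423.HY

open SimpleGraph Finset

/-- The colour group. -/
abbrev Col (q : ℕ) : Type := ZMod q × ZMod 2

/-- A proper colouring of `G` for which the edges of `N` keep the first coordinate. -/
def MC {V : Type} (G N : SimpleGraph V) (q : ℕ) : Prop :=
  ∃ f : V → Col q, (∀ u v, G.Adj u v → f u ≠ f v) ∧ ∀ u v, N.Adj u v → (f u).1 = (f v).1

theorem MC.of_two {V : Type} (G N : SimpleGraph V) (q : ℕ) (h : G.Colorable 2) : MC G N q := by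
  obtain ⟨C⟩ := h
  refine ⟨fun v => (0, ((C v).val : ZMod 2)), ?_, fun _ _ _ => rfl⟩
  intro u v huv h
  have h1 := C.valid huv
  have h2 : (((C u).val : ℕ) : ZMod 2) = ((C v).val : ZMod 2) := congrArg Prod.snd h
  rw [ZMod.natCast_eq_natCast_iff'] at h2
  apply h1
  ext
  have := (C u).isLt
  have := (C v).isLt
  omega

theorem card_col (q : ℕ) [NeZero q] : (univ : Finset (Col q)).card = 2 * q := by
  rw [card_univ, Fintype.card_prod, ZMod.card, ZMod.card, Nat.mul_comm]

theorem two_ne (s : ZMod 2) : s + 1 ≠ s := by
  intro h
  exact one_ne_zero (add_eq_left.1 h)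

/-- The greedy colouring. -/
theorem MC.of_deg {V : Type} [Finite V] (G N : SimpleGraph V) (q : ℕ) (hq : 1 ≤ q)
    (hN : N ≤ G) (hN1 : ∀ v, (N.neighborSet v).ncard ≤ 1)
    (hdeg : ∀ v, (G.neighborSet v).ncard ≤ q) : MC G N q := by
  classical
  have := Fintype.ofFinite V
  have : NeZero q := ⟨by omega⟩
  -- the partner map
  have huniq : ∀ u v w, N.Adj u v → N.Adj u w → v = w := fun u v w h1 h2 =>
    (Set.ncard_le_one_iff (Set.toFinite _)).1 (hN1 u) h1 h2
  let σ : V → V := fun v => if h : ∃ w, N.Adj v w then h.choose else v
  have hσ1 : ∀ v w, N.Adj v w → σ v = w := fun v w h => by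
    have h' : ∃ w, N.Adj v w := ⟨w, h⟩
    simp only [σ, dif_pos h']
    exact huniq v _ _ h'.choose_spec h
  have hσ2 : ∀ v, σ v ≠ v → N.Adj v (σ v) := fun v h => by
    by_cases h' : ∃ w, N.Adj v w
    · obtain ⟨w, hw⟩ := h'
      rw [hσ1 v w hw]
      exact hw
    · exact absurd (by simp only [σ, dif_neg h']) h
  have hσσ : ∀ v, σ (σ v) = v := fun v => by
    by_cases h : σ v = v
    · rw [h, h]
    · exact hσ1 _ _ (hσ2 v h).symm
  have hdeg' : ∀ v, (G.neighborFinset v).card ≤ q := fun v => by
    have h := hdeg v
    rwa [Set.ncard_eq_toFinset_card', ← SimpleGraph.neighborFinset_def] at h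
  suffices H : ∀ S : Finset V, ∃ f : V → Col q,
      (∀ u v, (u ∈ S ∨ σ u ∈ S) → (v ∈ S ∨ σ v ∈ S) → G.Adj u v → f u ≠ f v) ∧
      ∀ u, (u ∈ S ∨ σ u ∈ S) → (f u).1 = (f (σ u)).1 by
    obtain ⟨f, h1, h2⟩ := H univ
    refine ⟨f, fun u v h => h1 u v (Or.inl (mem_univ _)) (Or.inl (mem_univ _)) h, ?_⟩
    intro u v h
    have := h2 u (Or.inl (mem_univ _))
    rwa [hσ1 u v h] at this
  intro S
  induction S using Finset.induction_on with
  | empty => exact ⟨fun _ => 0, by simp, by simp⟩
  | insert a S ha ih =>
    obtain ⟨f, h1, h2⟩ := ih
    by_cases hs : σ a ∈ S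
    · have key : ∀ u, (u ∈ insert a S ∨ σ u ∈ insert a S) → (u ∈ S ∨ σ u ∈ S) := by
        intro u hu
        simp only [mem_insert] at hu
        rcases hu with (rfl | hu) | (hu | hu)
        · exact Or.inr hs
        · exact Or.inl hu
        · left
          rw [← hσσ u, hu]
          exact hs
        · exact Or.inr hu
      exact ⟨f, fun u v hu hv h => h1 u v (key u hu) (key v hv) h, fun u hu => h2 u (key u hu)⟩
    · -- the forbidden colours
      set F : Finset (Col q) := ((G.neighborFinset a).erase (σ a)).image f ∪
        (if σ a = a then ∅ else ((G.neighborFinset (σ a)).erase a).image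
          (fun w => ((f w).1, (f w).2 + 1))) with hF
      have hFc : F.card < (univ : Finset (Col q)).card := by
        rw [card_col, hF]
        refine lt_of_le_of_lt (card_union_le _ _) ?_
        by_cases hfix : σ a = a
        · rw [if_pos hfix, card_empty]
          have e1 := card_image_le (s := (G.neighborFinset a).erase (σ a)) (f := f)
          have e2 := card_erase_le (s := G.neighborFinset a) (a := σ a)
          have e3 := hdeg' a
          omega
        · rw [if_neg hfix]
          have hadj := hN (hσ2 a hfix)
          have e1 := card_image_le (s := (G.neighborFinset a).erase (σ a)) (f := f)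
          have e2 := card_erase_of_mem ((G.mem_neighborFinset a (σ a)).2 hadj)
          have e3 := hdeg' a
          have e4 := card_image_le (s := (G.neighborFinset (σ a)).erase a)
            (f := fun w => ((f w).1, (f w).2 + 1))
          have e5 := card_erase_of_mem ((G.mem_neighborFinset (σ a) a).2 hadj.symm)
          have e6 := hdeg' (σ a)
          omega
      obtain ⟨o, -, ho⟩ := exists_mem_notMem_of_card_lt_card hFc
      have ho1 : ∀ w, G.Adj a w → w ≠ σ a → f w ≠ o := by
        intro w hw hne he
        apply ho
        rw [hF]
        exact mem_union_left _ (mem_image.2 ⟨w, mem_erase.2 ⟨hne, (G.mem_neighborFinset a w).2 hw⟩,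
          he⟩)
      have ho2 : σ a ≠ a → ∀ w, G.Adj (σ a) w → w ≠ a → f w ≠ (o.1, o.2 + 1) := by
        intro hfix w hw hne he
        apply ho
        rw [hF, if_neg hfix]
        refine mem_union_right _ (mem_image.2 ⟨w, mem_erase.2 ⟨hne,
          (G.mem_neighborFinset (σ a) w).2 hw⟩, ?_⟩)
        rw [he]
        refine Prod.ext rfl ?_
        show o.2 + 1 + 1 = o.2
        rw [add_assoc]
        have : (1 : ZMod 2) + 1 = 0 := by decide
        rw [this, add_zero]
      let g : V → Col q := fun u => if u = a then o else if u = σ a then (o.1, o.2 + 1) else f u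
      have ga : g a = o := if_pos rfl
      have gs : σ a ≠ a → g (σ a) = (o.1, o.2 + 1) := fun h => by
        simp only [g, if_neg h, if_true]
      have go : ∀ u, u ≠ a → u ≠ σ a → g u = f u := fun u h h' => by
        simp only [g, if_neg h, if_neg h']
      have hold : ∀ u, (u ∈ insert a S ∨ σ u ∈ insert a S) → u ≠ a → u ≠ σ a →
          (u ∈ S ∨ σ u ∈ S) := by
        intro u hu h h'
        simp only [mem_insert] at hu
        rcases hu with (rfl | hu) | (hu | hu)
        · exact absurd rfl h
        · exact Or.inl hu
        · exact absurd (by rw [← hσσ u, hu]) h'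
        · exact Or.inr hu
      -- one direction of properness
      have hprop : ∀ u v, (u ∈ insert a S ∨ σ u ∈ insert a S) →
          (v ∈ insert a S ∨ σ v ∈ insert a S) → G.Adj u v → g u ≠ g v := by
        intro u v hu hv huv
        by_cases hua : u = a
        · subst hua
          rw [ga]
          by_cases hvs : v = σ u
          · subst hvs
            rw [gs huv.ne']
            intro h
            exact two_ne _ (congrArg Prod.snd h).symm
          · rw [go v huv.ne' hvs]
            exact (ho1 v huv hvs).symm
        · by_cases hus : u = σ a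
          · subst hus
            rw [gs hua]
            by_cases hva : v = a
            · subst hva
              rw [ga]
              intro h
              exact two_ne _ (congrArg Prod.snd h)
            · rw [go v hva huv.ne']
              exact (ho2 hua v huv hva).symm
          · rw [go u hua hus]
            by_cases hva : v = a
            · subst hva
              rw [ga]
              exact ho1 u huv.symm hus
            · by_cases hvs : v = σ a
              · subst hvs
                rw [gs hva]
                exact ho2 hva u huv.symm hua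
              · rw [go v hva hvs]
                exact h1 u v (hold u hu hua hus) (hold v hv hva hvs) huv
      refine ⟨g, hprop, ?_⟩
      intro u hu
      by_cases hua : u = a
      · subst hua
        by_cases hfix : σ u = u
        · rw [hfix]
        · rw [ga, gs hfix]
      · by_cases hus : u = σ a
        · subst hus
          rw [hσσ, ga, gs hua]
        · have h3 : σ u ≠ a := fun h => hus (by rw [← hσσ u, h])
          have h4 : σ u ≠ σ a := fun h => hua (by rw [← hσσ u, h, hσσ])
          rw [go u hua hus, go (σ u) h3 h4]
          exact h2 u (hold u hu hua hus)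

/-- Any proper colouring with `2q` colours. -/
theorem MC.of_colorable {V : Type} (G : SimpleGraph V) (q : ℕ) (hq : 1 ≤ q)
    (h : G.Colorable (2 * q)) : MC G ⊥ q := by
  classical
  have : NeZero q := ⟨by omega⟩
  have hc : Fintype.card (Col q) = 2 * q := card_col q
  have e : Fin (2 * q) ≃ Col q := Fintype.equivOfCardEq (by rw [Fintype.card_fin, hc])
  obtain ⟨C⟩ := h
  refine ⟨fun v => e (C v), fun u v huv h => C.valid huv (e.injective h), fun u v h => ?_⟩
  exact absurd h (by simp)

end Pool.Agent.Y423.HY
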