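import Pool.Agent.Y423.HY.Crit
import Pool.Agent.Y423.LA.Cls

set_option autoImplicit false

/-!
Edge colourings of Cartesian products whose factors have a matching covering the vertices of
maximum degree.
-/

namespace Pool.Agent.Y423.HY

open SimpleGraph Finset Pool.Agent.Y423.LA

/-- Vizing's theorem, with the colour missing at every vertex. -/
theorem vizing_miss {V : Type} [Finite V] (G : SimpleGraph V) (d : ℕ)
    (hdeg : ∀ v, (G.neighborSet v).ncard ≤ d) :
    ∃ (φ : V → V → ℕ) (μ : V → ℕ), (∀ u v, φ u v = φ v u) ∧ (∀ u v, G.Adj u v → φ u v ≤ d) ∧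
      (∀ u v w, G.Adj u v → G.Adj u w → v ≠ w → φ u v ≠ φ u w) ∧ (∀ v, μ v ≤ d) ∧
      ∀ u v, G.Adj u v → φ u v ≠ μ u := by
  classical
  have := Fintype.ofFinite V
  have hdeg' : ∀ v, G.degree v ≤ d := fun v => by
    have h := hdeg v
    rwa [Set.ncard_eq_toFinset_card', ← SimpleGraph.neighborFinset_def,
      card_neighborFinset_eq_degree] at h
  obtain ⟨φ, h1, h2, h3⟩ := Pool.Agent.H238R2.HY.vizing G d hdeg'
  have hex : ∀ u, ∃ c, c ≤ d ∧ ∀ v, G.Adj u v → φ u v ≠ c := by
    intro u
    have hcard : ((G.neighborFinset u).image (φ u)).card < (range (d + 1)).card := by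
      refine lt_of_le_of_lt card_image_le ?_
      rw [card_neighborFinset_eq_degree, card_range]
      exact Nat.lt_succ_of_le (hdeg' u)
    obtain ⟨c, hc1, hc2⟩ := exists_mem_notMem_of_card_lt_card hcard
    rw [mem_range] at hc1
    exact ⟨c, by omega, fun v hv h => hc2 (mem_image.2 ⟨v, (G.mem_neighborFinset u v).2 hv, h⟩)⟩
  choose μ hμ1 hμ2 using hex
  exact ⟨φ, μ, h1, h2, fun u v w hv hw hvw => h3 u v w hv hw hvw, hμ1, hμ2⟩

/-- `Q` has a matching the deletion of which lowers the degree bound `d`. -/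
def Gd {V : Type} (Q : SimpleGraph V) (d : ℕ) : Prop :=
  ∃ N ≤ Q, (∀ v, (N.neighborSet v).ncard ≤ 1) ∧ ∀ v, ((Q \ N).neighborSet v).ncard + 1 ≤ d

theorem eq_of_deg_one {V : Type} [Finite V] {N : SimpleGraph V}
    (h : ∀ v, (N.neighborSet v).ncard ≤ 1) {u v w : V} (h1 : N.Adj u v) (h2 : N.Adj u w) :
    v = w :=
  (Set.ncard_le_one_iff (Set.toFinite _)).1 (h u) h1 h2

/-- A product of two such graphs is of class one. -/
theorem Gd.box {X Y : Type} [Finite X] [Finite Y] {A : SimpleGraph X} {B : SimpleGraph Y}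
    {a b : ℕ} (hA : Gd A a) (hB : Gd B b) : EC (A.boxProd B) (a + b) := by
  classical
  obtain ⟨N, hN1, hN2, hN3⟩ := hA
  obtain ⟨M, hM1, hM2, hM3⟩ := hB
  obtain ⟨φ, μ, p1, p2, p3, p4, p5⟩ := vizing_miss (A \ N) (a - 1) (fun v => by
    have := hN3 v
    omega)
  obtain ⟨ψ, ν, q1, q2, q3, q4, q5⟩ := vizing_miss (B \ M) (b - 1) (fun v => by
    have := hM3 v
    omega)
  refine ⟨fun u v => if u.2 = v.2 then (if N.Adj u.1 v.1 then a + ν u.2 else φ u.1 v.1)
    else (if M.Adj u.2 v.2 then μ u.1 else a + ψ u.2 v.2), ?_, ?_, ?_⟩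
  · rintro ⟨x, y⟩ ⟨x', y'⟩ h
    rw [boxProd_adj] at h
    rcases h with ⟨h, h'⟩ | ⟨h, h'⟩
    · dsimp only at h h' ⊢
      subst h'
      by_cases hn : N.Adj x x'
      · simp only [if_true, if_pos hn, if_pos hn.symm]
      · simp only [if_true, if_neg hn, if_neg (fun k => hn (SimpleGraph.Adj.symm k)), p1 x x']
    · dsimp only at h h' ⊢
      subst h'
      by_cases hn : M.Adj y y'
      · simp only [if_neg h.ne, if_neg h.ne', if_pos hn, if_pos hn.symm]
      · simp only [if_neg h.ne, if_neg h.ne', if_neg hn, if_neg (fun k => hn (SimpleGraph.Adj.symm k)),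
          q1 y y']
  · rintro ⟨x, y⟩ ⟨x', y'⟩ h
    have ha := hN3 x
    have hb := hM3 y
    have hμ := p4 x
    have hν := q4 y
    rw [boxProd_adj] at h
    rcases h with ⟨h, h'⟩ | ⟨h, h'⟩
    · dsimp only at h h' ⊢
      subst h'
      by_cases hn : N.Adj x x'
      · simp only [if_true, if_pos hn]
        omega
      · simp only [if_true, if_neg hn]
        have := p2 x x' ((sdiff_adj _ _ _ _).2 ⟨h, hn⟩)
        omega
    · dsimp only at h h' ⊢
      subst h'
      by_cases hn : M.Adj y y'
      · simp only [if_neg h.ne, if_pos hn]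
        omega
      · simp only [if_neg h.ne, if_neg hn]
        have := q2 y y' ((sdiff_adj _ _ _ _).2 ⟨h, hn⟩)
        omega
  · rintro ⟨x, y⟩ ⟨x', y'⟩ ⟨x'', y''⟩ h k hne
    have ha := hN3 x
    have hb := hM3 y
    have hμ := p4 x
    have hν := q4 y
    rw [boxProd_adj] at h k
    have hA' : ∀ z, A.Adj x z → ¬ N.Adj x z → (A \ N).Adj x z := fun z h1 h2 =>
      (sdiff_adj _ _ _ _).2 ⟨h1, h2⟩
    have hB' : ∀ z, B.Adj y z → ¬ M.Adj y z → (B \ M).Adj y z := fun z h1 h2 =>
      (sdiff_adj _ _ _ _).2 ⟨h1, h2⟩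
    rcases h with ⟨h, h'⟩ | ⟨h, h'⟩
    · dsimp only at h h'
      subst h'
      rcases k with ⟨k, k'⟩ | ⟨k, k'⟩
      · dsimp only at k k' ⊢
        subst k'
        have hx : x' ≠ x'' := fun e => hne (by rw [e])
        by_cases hn : N.Adj x x'
        · by_cases hn' : N.Adj x x''
          · exact absurd (eq_of_deg_one hN2 hn hn') hx
          · simp only [if_true, if_pos hn, if_neg hn']
            have := p2 _ _ (hA' _ k hn')
            omega
        · by_cases hn' : N.Adj x x''
          · simp only [if_true, if_neg hn, if_pos hn']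
            have := p2 _ _ (hA' _ h hn)
            omega
          · simp only [if_true, if_neg hn, if_neg hn']
            exact p3 _ _ _ (hA' _ h hn) (hA' _ k hn') hx
      · dsimp only at k k' ⊢
        subst k'
        by_cases hn : N.Adj x x'
        · by_cases hm : M.Adj y y''
          · simp only [if_true, if_pos hn, if_neg k.ne, if_pos hm]
            omega
          · simp only [if_true, if_pos hn, if_neg k.ne, if_neg hm]
            have := q5 _ _ (hB' _ k hm)
            omega
        · by_cases hm : M.Adj y y''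
          · simp only [if_true, if_neg hn, if_neg k.ne, if_pos hm]
            exact p5 _ _ (hA' _ h hn)
          · simp only [if_true, if_neg hn, if_neg k.ne, if_neg hm]
            have := p2 _ _ (hA' _ h hn)
            omega
    · dsimp only at h h'
      subst h'
      rcases k with ⟨k, k'⟩ | ⟨k, k'⟩
      · dsimp only at k k' ⊢
        subst k'
        by_cases hm : M.Adj y y'
        · by_cases hn : N.Adj x x''
          · simp only [if_true, if_pos hn, if_neg h.ne, if_pos hm]
            omega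
          · simp only [if_true, if_neg hn, if_neg h.ne, if_pos hm]
            exact (p5 _ _ (hA' _ k hn)).symm
        · by_cases hn : N.Adj x x''
          · simp only [if_true, if_pos hn, if_neg h.ne, if_neg hm]
            have := q5 _ _ (hB' _ h hm)
            omega
          · simp only [if_true, if_neg hn, if_neg h.ne, if_neg hm]
            have := p2 _ _ (hA' _ k hn)
            omega
      · dsimp only at k k' ⊢
        subst k'
        have hy : y' ≠ y'' := fun e => hne (by rw [e])
        by_cases hm : M.Adj y y'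
        · by_cases hm' : M.Adj y y''
          · exact absurd (eq_of_deg_one hM2 hm hm') hy
          · simp only [if_neg h.ne, if_neg k.ne, if_pos hm, if_neg hm']
            omega
        · by_cases hm' : M.Adj y y''
          · simp only [if_neg h.ne, if_neg k.ne, if_neg hm, if_pos hm']
            omega
          · simp only [if_neg h.ne, if_neg k.ne, if_neg hm, if_neg hm']
            have := q3 _ _ _ (hB' _ h hm) (hB' _ k hm') hy
            omega

theorem EC.comap {V W : Type} (e : V ≃ W) {G : SimpleGraph W} {t : ℕ} (h : EC G t) :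
    EC (G.comap e) t := by
  obtain ⟨φ, h1, h2, h3⟩ := h
  exact ⟨fun u v => φ (e u) (e v), fun u v h => h1 _ _ h, fun u v h => h2 _ _ h,
    fun u v w hv hw hvw => h3 _ _ _ hv hw (fun h => hvw (e.injective h))⟩

theorem piG_sdiff {ι : Type} {V : ι → Type} (G N : ∀ i, SimpleGraph (V i)) :
    piG G \ piG N = piG (fun i => G i \ N i) := by
  ext x y
  rw [sdiff_adj, piG_adj, piG_adj, piG_adj]
  constructor
  · rintro ⟨⟨i, h1, h2⟩, h3⟩
    exact ⟨i, (sdiff_adj _ _ _ _).2 ⟨h1, fun h => h3 ⟨i, h, h2⟩⟩, h2⟩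
  · rintro ⟨i, h1, h2⟩
    rw [sdiff_adj] at h1
    refine ⟨⟨i, h1.1, h2⟩, ?_⟩
    rintro ⟨j, h3, h4⟩
    by_cases hj : j = i
    · subst hj
      exact h1.2 h3
    · exact h3.ne (h2 j hj)

theorem piG_mono {ι : Type} {V : ι → Type} {G H : ∀ i, SimpleGraph (V i)} (h : ∀ i, G i ≤ H i) :
    piG G ≤ piG H := by
  rintro x y ⟨i, h1, h2⟩
  exact ⟨i, h i h1, h2⟩

/-- A product with one good factor is good. -/
theorem Gd.pi {ι : Type} [Fintype ι] {V : ι → Type} [∀ i, Finite (V i)]
    (G : ∀ i, SimpleGraph (V i)) (d : ι → ℕ) (hd : ∀ i v, ((G i).neighborSet v).ncard ≤ d i)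
    (j : ι) (hj : Gd (G j) (d j)) : Gd (piG G) (∑ i, d i) := by
  classical
  obtain ⟨N, h1, h2, h3⟩ := hj
  have e0 : ∀ i, i ≠ j → Function.update (fun i => (⊥ : SimpleGraph (V i))) j N i = ⊥ :=
    fun i hi => Function.update_of_ne hi _ _
  have e1 : Function.update (fun i => (⊥ : SimpleGraph (V i))) j N j = N :=
    Function.update_self _ _ _
  refine ⟨piG (Function.update (fun i => (⊥ : SimpleGraph (V i))) j N), piG_mono ?_, ?_, ?_⟩
  · intro i
    by_cases hi : i = j
    · subst hi
      rw [e1]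
      exact h1
    · rw [e0 i hi]
      exact bot_le
  · intro x
    rw [piG_deg, ← add_sum_erase univ _ (mem_univ j), e1]
    have : ∑ i ∈ univ.erase j, ((Function.update (fun i => (⊥ : SimpleGraph (V i))) j N
        i).neighborSet (x i)).ncard = 0 := by
      refine sum_eq_zero fun i hi => ?_
      rw [e0 i (ne_of_mem_erase hi)]
      simp
    rw [this]
    exact h2 _
  · intro x
    rw [piG_sdiff, piG_deg, ← add_sum_erase univ _ (mem_univ j),
      ← add_sum_erase univ d (mem_univ j), e1]
    have h4 : ∑ i ∈ univ.erase j, ((G i \ Function.update (fun i => (⊥ : SimpleGraph (V i)))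
        j N i).neighborSet (x i)).ncard ≤ ∑ i ∈ univ.erase j, d i := by
      refine sum_le_sum fun i hi => ?_
      rw [e0 i (ne_of_mem_erase hi), sdiff_bot]
      exact hd i _
    have h5 := h3 (x j)
    omega

/-- A product with two good factors is of class one. -/
theorem ec_pi {ι : Type} [Fintype ι] {V : ι → Type} [∀ i, Finite (V i)]
    (G : ∀ i, SimpleGraph (V i)) (d : ι → ℕ) (hd : ∀ i v, ((G i).neighborSet v).ncard ≤ d i)
    (j k : ι) (hjk : j ≠ k) (hj : Gd (G j) (d j)) (hk : Gd (G k) (d k)) :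
    EC (piG G) (∑ i, d i) := by
  classical
  rw [piG_split G (fun i => i = j)]
  refine EC.comap _ ?_
  have h1 := Gd.pi (fun i : {i // i = j} => G i.1) (fun i => d i.1) (fun i => hd i.1) ⟨j, rfl⟩ hj
  have h2 := Gd.pi (fun i : {i // ¬ i = j} => G i.1) (fun i => d i.1) (fun i => hd i.1)
    ⟨k, fun h => hjk h.symm⟩ hk
  have h3 := Gd.box h1 h2
  have e1 : (∑ i : {i // i = j}, d i.1) = ∑ i ∈ univ.filter (fun i => i = j), d i :=
    (Finset.sum_subtype (univ.filter (fun i => i = j)) (p := fun i => i = j)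
      (fun i => by simp) d).symm
  have e2 : (∑ i : {i // ¬ i = j}, d i.1) = ∑ i ∈ univ.filter (fun i => ¬ i = j), d i :=
    (Finset.sum_subtype (univ.filter (fun i => ¬ i = j)) (p := fun i => ¬ i = j)
      (fun i => by simp) d).symm
  rw [e1, e2, sum_filter_add_sum_filter_not] at h3
  exact h3

end Pool.Agent.Y423.HY
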