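import Pool.Agent.Y423.HY.Match
import Pool.Agent.Y423.HY.Prod

set_option autoImplicit false

/-!
Matched colourings of products; matched colourings from unordered pairs of colours; edge
colourings of products with a factor of class one.
-/

namespace Pool.Agent.Y423.HY

open SimpleGraph Finset Pool.Agent.Y423.LA

theorem MC.box {X Y : Type} {A N : SimpleGraph X} {B M : SimpleGraph Y} {q : ℕ}
    (hA : MC A N q) (hB : MC B M q) : MC (A.boxProd B) (N.boxProd M) q := by
  obtain ⟨f, f1, f2⟩ := hA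
  obtain ⟨g, g1, g2⟩ := hB
  refine ⟨fun z => f z.1 + g z.2, ?_, ?_⟩
  · rintro ⟨x, y⟩ ⟨x', y'⟩ h e
    rw [boxProd_adj] at h
    dsimp only at h e
    rcases h with ⟨h, h'⟩ | ⟨h, h'⟩
    · subst h'
      exact f1 _ _ h (add_right_cancel e)
    · subst h'
      exact g1 _ _ h (add_left_cancel e)
  · rintro ⟨x, y⟩ ⟨x', y'⟩ h
    rw [boxProd_adj] at h
    dsimp only at h ⊢
    rw [Prod.fst_add, Prod.fst_add]
    rcases h with ⟨h, h'⟩ | ⟨h, h'⟩
    · subst h'
      rw [f2 _ _ h]
    · subst h'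
      rw [g2 _ _ h]

theorem MC.pi {ι : Type} [Fintype ι] {V : ι → Type} {G N : ∀ i, SimpleGraph (V i)} {q : ℕ}
    (h : ∀ i, MC (G i) (N i) q) : MC (piG G) (piG N) q := by
  classical
  choose f h1 h2 using h
  have key : ∀ (x y : ∀ i, V i) (i : ι), (∀ j, j ≠ i → x j = y j) →
      (∑ j, f j (x j)) = f i (x i) + ∑ j ∈ univ.erase i, f j (x j) ∧
      (∑ j, f j (y j)) = f i (y i) + ∑ j ∈ univ.erase i, f j (x j) := by
    intro x y i hxy
    refine ⟨(add_sum_erase univ (fun j => f j (x j)) (mem_univ i)).symm, ?_⟩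
    rw [← add_sum_erase univ (fun j => f j (y j)) (mem_univ i)]
    congr 1
    exact sum_congr rfl fun j hj => by rw [hxy j (ne_of_mem_erase hj)]
  refine ⟨fun x => ∑ j, f j (x j), ?_, ?_⟩
  · rintro x y ⟨i, hi, hxy⟩ e
    obtain ⟨e1, e2⟩ := key x y i hxy
    dsimp only at e
    rw [e1, e2] at e
    exact h1 i _ _ hi (add_right_cancel e)
  · rintro x y ⟨i, hi, hxy⟩
    obtain ⟨e1, e2⟩ := key x y i hxy
    dsimp only
    rw [e1, e2, Prod.fst_add, Prod.fst_add, h2 i _ _ hi]

/-- The labels `0, …, 2q - 1`. -/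
theorem MC.nat {V : Type} {G N : SimpleGraph V} {q : ℕ} (hq : 1 ≤ q) (h : MC G N q) :
    ∃ c : V → ℕ, (∀ v, c v + 1 ≤ 2 * q) ∧ (∀ u v, G.Adj u v → c u ≠ c v) ∧
      ∀ u v, N.Adj u v → c u / 2 = c v / 2 := by
  have : NeZero q := ⟨by omega⟩
  obtain ⟨f, h1, h2⟩ := h
  have hlt : ∀ v, (f v).2.val < 2 := fun v => ZMod.val_lt _
  refine ⟨fun v => 2 * (f v).1.val + (f v).2.val, ?_, ?_, ?_⟩
  · intro v
    have h3 := ZMod.val_lt (f v).1
    have h4 := hlt v
    dsimp only
    omega
  · intro u v huv e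
    dsimp only at e
    have h3 := hlt u
    have h4 := hlt v
    apply h1 u v huv
    refine Prod.ext ?_ ?_
    · exact ZMod.val_injective q (by omega)
    · exact ZMod.val_injective 2 (by omega)
  · intro u v huv
    dsimp only
    have h3 := hlt u
    have h4 := hlt v
    rw [h2 u v huv]
    omega

/-- Unordered pairs of colours of a proper colouring with `r` colours. -/
theorem MC.of_pairs {V : Type} [Finite V] (G N : SimpleGraph V) (q r : ℕ) (hq : 1 ≤ q)
    (hN : N ≤ G) (hN1 : ∀ v, (N.neighborSet v).ncard ≤ 1) (hr : G.Colorable r)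
    (hrq : r * (r - 1) ≤ 2 * q) : MC G N q := by
  classical
  have : NeZero q := ⟨by omega⟩
  obtain ⟨C⟩ := hr
  by_cases hr2 : 2 ≤ r
  · have hcard : Fintype.card {s : Finset (Fin r) // s.card = 2} ≤ Fintype.card (ZMod q) := by
      rw [Fintype.card_finset_len, Fintype.card_fin, ZMod.card, Nat.choose_two_right]
      omega
    obtain ⟨e⟩ := Function.Embedding.nonempty_of_card_le hcard
    have hex : ∀ v, ∃ o : Fin r, o ≠ C v ∧ ∀ w, N.Adj v w → C w = o := by
      intro v
      by_cases h : ∃ w, N.Adj v w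
      · obtain ⟨w, hw⟩ := h
        refine ⟨C w, (C.valid (hN hw)).symm, fun w' hw' => ?_⟩
        rw [eq_of_deg_one hN1 hw hw']
      · have : Nontrivial (Fin r) := Fin.nontrivial_iff_two_le.2 hr2
        obtain ⟨o, ho⟩ := exists_ne (C v)
        exact ⟨o, ho, fun w hw => absurd ⟨w, hw⟩ h⟩
    choose o ho1 ho2 using hex
    refine ⟨fun v => (e ⟨{C v, o v}, card_pair (ho1 v).symm⟩, if C v < o v then 0 else 1), ?_, ?_⟩
    · intro u v huv h
      have h1 := e.injective (congrArg Prod.fst h)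
      have h2 : (if C u < o u then (0 : ZMod 2) else 1) = if C v < o v then 0 else 1 :=
        congrArg Prod.snd h
      rw [Subtype.mk.injEq] at h1
      have hne := C.valid huv
      have m1 : C u ∈ ({C v, o v} : Finset (Fin r)) := by rw [← h1]; simp
      have m2 : C v ∈ ({C u, o u} : Finset (Fin r)) := by rw [h1]; simp
      simp only [mem_insert, mem_singleton] at m1 m2
      have e1 : C u = o v := m1.resolve_left hne
      have e2 : C v = o u := m2.resolve_left hne.symm
      rw [← e1, ← e2] at h2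
      rcases lt_or_gt_of_ne hne with h3 | h3
      · rw [if_pos h3, if_neg (not_lt.2 h3.le)] at h2
        exact absurd h2 (by decide)
      · rw [if_neg (not_lt.2 h3.le), if_pos h3] at h2
        exact absurd h2 (by decide)
    · intro u v huv
      dsimp only
      congr 1
      rw [Subtype.mk.injEq, ← ho2 u v huv, ← ho2 v u huv.symm, pair_comm]
  · have : Subsingleton (Fin r) := Fin.subsingleton_iff_le_one.2 (by omega)
    exact ⟨fun _ => 0, fun u v huv => absurd (Subsingleton.elim _ _) (C.valid huv),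
      fun _ _ _ => rfl⟩

/-- The colour classes of a bipartite graph. -/
theorem ec_bip {V : Type} [Finite V] (A : SimpleGraph V) (h : A.Colorable 2) (D : ℕ)
    (hdeg : ∀ v, (A.neighborSet v).ncard ≤ D) (r : ℕ) (hr : r ≤ D) :
    ∃ N ≤ A, (∀ v, (N.neighborSet v).ncard ≤ r) ∧ EC (A \ N) (D - r) := by
  classical
  obtain ⟨C⟩ := h
  obtain ⟨φ, h1, h2, h3⟩ := galvin_par A D (fun v => (C v).val) (fun u v huv e => by
      have h1 := C.valid huv
      have h2 := (C u).isLt
      have h3 := (C v).isLt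
      apply h1
      ext
      omega) hdeg (fun _ _ => range D) (fun _ _ _ => rfl) (fun _ _ _ => by rw [card_range])
  let N : SimpleGraph V :=
    { Adj := fun u v => A.Adj u v ∧ φ u v < r
      symm := ⟨fun u v h => ⟨h.1.symm, by rw [h1 v u h.1.symm]; exact h.2⟩⟩
      loopless := ⟨fun u h => h.1.ne rfl⟩ }
  have hN : ∀ u v, N.Adj u v ↔ A.Adj u v ∧ φ u v < r := fun _ _ => Iff.rfl
  refine ⟨N, fun u v h => h.1, ?_, fun u v => φ u v - r, ?_, ?_, ?_⟩
  · intro v
    have hle : (N.neighborSet v).ncard ≤ (Set.Iio r).ncard := by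
      refine Set.ncard_le_ncard_of_injOn (fun w => φ v w) ?_ ?_ (Set.toFinite _)
      · intro w hw
        exact hw.2
      · intro w hw w' hw' e
        by_contra hne
        exact h3 v w w' hw.1 hw'.1 hne e
    rwa [← coe_range, Set.ncard_coe_finset, card_range] at hle
  · intro u v huv
    rw [sdiff_adj] at huv
    dsimp only
    rw [h1 u v huv.1]
  · intro u v huv
    rw [sdiff_adj, hN] at huv
    have h4 := mem_range.1 (h2 u v huv.1)
    have h5 : ¬ φ u v < r := fun h => huv.2 ⟨huv.1, h⟩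
    dsimp only
    omega
  · intro u v w huv huw hvw
    rw [sdiff_adj, hN] at huv huw
    have h5 : ¬ φ u v < r := fun h => huv.2 ⟨huv.1, h⟩
    have h6 : ¬ φ u w < r := fun h => huw.2 ⟨huw.1, h⟩
    have h7 := h3 u v w huv.1 huw.1 hvw
    dsimp only
    omega

/-- A product with a factor of class one is of class one. -/
theorem EC.box {X Y : Type} [Finite X] [Finite Y] {A : SimpleGraph X} {B : SimpleGraph Y}
    {a b : ℕ} (ha : 1 ≤ a) (hA : EC A a) (hB : ∀ y, (B.neighborSet y).ncard ≤ b) :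
    EC (A.boxProd B) (a + b) := by
  classical
  obtain ⟨φ, p1, p2, p3⟩ := hA
  obtain ⟨ψ, ν, q1, q2, q3, q4, q5⟩ := vizing_miss B b hB
  refine ⟨fun u v => if u.2 = v.2 then (if φ u.1 v.1 < a - 1 then φ u.1 v.1 else
    a - 1 + ν u.2) else a - 1 + ψ u.2 v.2, ?_, ?_, ?_⟩
  · rintro ⟨x, y⟩ ⟨x', y'⟩ h
    rw [boxProd_adj] at h
    rcases h with ⟨h, h'⟩ | ⟨h, h'⟩
    · dsimp only at h h' ⊢
      subst h'
      simp only [if_true, p1 x x' h]
    · dsimp only at h h' ⊢
      subst h'
      simp only [if_neg h.ne, if_neg h.ne', q1 y y']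
  · rintro ⟨x, y⟩ ⟨x', y'⟩ h
    have hν := q4 y
    rw [boxProd_adj] at h
    rcases h with ⟨h, h'⟩ | ⟨h, h'⟩
    · dsimp only at h h' ⊢
      subst h'
      simp only [if_true]
      split_ifs <;> omega
    · dsimp only at h h' ⊢
      subst h'
      have := q2 _ _ h
      simp only [if_neg h.ne]
      omega
  · rintro ⟨x, y⟩ ⟨x', y'⟩ ⟨x'', y''⟩ h k hne
    rw [boxProd_adj] at h k
    rcases h with ⟨h, h'⟩ | ⟨h, h'⟩
    · dsimp only at h h'
      subst h'
      have e1 := p2 _ _ h
      rcases k with ⟨k, k'⟩ | ⟨k, k'⟩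
      · dsimp only at k k' ⊢
        subst k'
        have e2 := p2 _ _ k
        have hx : x' ≠ x'' := fun e => hne (by rw [e])
        have e3 := p3 _ _ _ h k hx
        simp only [if_true]
        split_ifs <;> omega
      · dsimp only at k k' ⊢
        subst k'
        have e2 := q5 _ _ k
        simp only [if_true, if_neg k.ne]
        split_ifs <;> omega
    · dsimp only at h h'
      subst h'
      rcases k with ⟨k, k'⟩ | ⟨k, k'⟩
      · dsimp only at k k' ⊢
        subst k'
        have e1 := p2 _ _ k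
        have e2 := q5 _ _ h
        simp only [if_true, if_neg h.ne]
        split_ifs <;> omega
      · dsimp only at k k' ⊢
        subst k'
        have hy : y' ≠ y'' := fun e => hne (by rw [e])
        have e3 := q3 _ _ _ h k hy
        simp only [if_neg h.ne, if_neg k.ne]
        omega

theorem EC.box' {X Y : Type} [Finite X] [Finite Y] {A : SimpleGraph X} {B : SimpleGraph Y}
    {a b : ℕ} (hb : 1 ≤ b) (hB : EC B b) (hA : ∀ x, (A.neighborSet x).ncard ≤ a) :
    EC (A.boxProd B) (a + b) := by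
  have h := EC.comap (Equiv.prodComm X Y) (EC.box hb hB hA)
  have e : (B.boxProd A).comap (Equiv.prodComm X Y) = A.boxProd B := by
    ext ⟨x, y⟩ ⟨x', y'⟩
    rw [comap_adj, boxProd_adj, boxProd_adj]
    simp only [Equiv.prodComm_apply, Prod.fst_swap, Prod.snd_swap]
    exact or_comm
  rw [e, add_comm] at h
  exact h

theorem box_sdiff {X Y : Type} (A N : SimpleGraph X) (B M : SimpleGraph Y) :
    A.boxProd B \ N.boxProd M = (A \ N).boxProd (B \ M) := by
  ext ⟨x, y⟩ ⟨x', y'⟩
  simp only [sdiff_adj, boxProd_adj]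
  constructor
  · rintro ⟨h | h, h2⟩
    · exact Or.inl ⟨⟨h.1, fun k => h2 (Or.inl ⟨k, h.2⟩)⟩, h.2⟩
    · exact Or.inr ⟨⟨h.1, fun k => h2 (Or.inr ⟨k, h.2⟩)⟩, h.2⟩
  · rintro (h | h)
    · refine ⟨Or.inl ⟨h.1.1, h.2⟩, ?_⟩
      rintro (k | k)
      · exact h.1.2 k.1
      · exact h.1.1.ne k.2
    · refine ⟨Or.inr ⟨h.1.1, h.2⟩, ?_⟩
      rintro (k | k)
      · exact h.1.1.ne k.2
      · exact h.1.2 k.1

theorem box_mono {X Y : Type} {A N : SimpleGraph X} {B M : SimpleGraph Y} (h : N ≤ A)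
    (h' : M ≤ B) : N.boxProd M ≤ A.boxProd B := by
  rintro ⟨x, y⟩ ⟨x', y'⟩ k
  rw [boxProd_adj] at k ⊢
  rcases k with k | k
  · exact Or.inl ⟨h k.1, k.2⟩
  · exact Or.inr ⟨h' k.1, k.2⟩

theorem box_deg {X Y : Type} [Finite X] [Finite Y] (A : SimpleGraph X) (B : SimpleGraph Y)
    (z : X × Y) : ((A.boxProd B).neighborSet z).ncard =
      (A.neighborSet z.1).ncard + (B.neighborSet z.2).ncard := by
  classical
  have := Fintype.ofFinite X
  have := Fintype.ofFinite Y
  have h1 := degree_boxProd (G := A) (H := B) z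
  rw [← card_neighborSet_eq_degree, ← card_neighborSet_eq_degree, ← card_neighborSet_eq_degree,
    ← Nat.card_eq_fintype_card, ← Nat.card_eq_fintype_card, ← Nat.card_eq_fintype_card] at h1
  exact h1

end Pool.Agent.Y423.HY
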