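import Pool.Agent.Y423.HY.Zero
import Pool.Agent.Y423.HY.Main

set_option autoImplicit false

/-!
Choice of the matched subgraph, and the theorem for families.
-/

namespace Pool.Agent.Y423.HY

open SimpleGraph Finset Pool.Agent.Y423.LA Pool.Agent.H238R2.HY

theorem sel {X ι : Type} [Fintype ι] {V : ι → Type} [Finite X] [∀ i, Finite (V i)]
    (B : SimpleGraph X) (G N : ∀ i, SimpleGraph (V i)) (q D m : ℕ) (d : ι → ℕ) (J : Finset ι)
    (hq : 1 ≤ q) (hB : B.Colorable 2) (hD : ∀ x, (B.neighborSet x).ncard ≤ D)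
    (hd : ∀ i v, ((G i).neighborSet v).ncard ≤ d i) (hcol : ∀ i, (G i).Colorable (2 * q))
    (hd1 : ∀ i ∈ J, 1 ≤ d i) (hN : ∀ i ∈ J, N i ≤ G i)
    (hN1 : ∀ i ∈ J, ∀ v, ((N i).neighborSet v).ncard ≤ 1)
    (hN2 : ∀ i ∈ J, ∀ v, ((G i \ N i).neighborSet v).ncard + 1 ≤ d i)
    (hJ : ∀ i ∈ J, d i ≤ q ∨ ∃ r, (G i).Colorable r ∧ r * (r - 1) ≤ 2 * q)
    (hcond : (1 ≤ D ∧ m + 1 ≤ D + J.card) ∨ m + 2 ≤ J.card) :
    ∃ C ≤ B.boxProd (piG G), MC (B.boxProd (piG G)) C q ∧ (∀ z, (C.neighborSet z).ncard ≤ m) ∧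
      ∃ t, EC (B.boxProd (piG G) \ C) t ∧ m + t = D + ∑ i, d i := by
  classical
  obtain ⟨J', hJ', hcard⟩ := exists_subset_card_eq (s := J) (n := min J.card m) (min_le_left _ _)
  set d' : ι → ℕ := fun i => if i ∈ J' then d i - 1 else d i with hd'
  set M : ∀ i, SimpleGraph (V i) := fun i => if i ∈ J' then N i else ⊥ with hM
  have hsum : ∑ i, d' i + J'.card = ∑ i, d i := by
    have e1 : J'.card = ∑ i, if i ∈ J' then 1 else 0 := by
      rw [sum_boole, filter_mem_eq_inter, univ_inter]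
      rfl
    rw [e1, ← sum_add_distrib]
    refine sum_congr rfl fun i _ => ?_
    by_cases hi : i ∈ J'
    · have := hd1 i (hJ' hi)
      simp only [hd', if_pos hi]
      omega
    · simp only [hd', if_neg hi, add_zero]
  have hMle : ∀ i, M i ≤ G i := fun i => by
    by_cases hi : i ∈ J'
    · simp only [hM, if_pos hi]
      exact hN i (hJ' hi)
    · simp only [hM, if_neg hi]
      exact bot_le
  have hMdeg : ∀ i v, ((M i).neighborSet v).ncard ≤ if i ∈ J' then 1 else 0 := fun i v => by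
    by_cases hi : i ∈ J'
    · simp only [hM, if_pos hi]
      exact hN1 i (hJ' hi) v
    · simp only [hM, if_neg hi]
      simp
  have hrest : ∀ i v, ((G i \ M i).neighborSet v).ncard ≤ d' i := fun i v => by
    by_cases hi : i ∈ J'
    · simp only [hM, hd', if_pos hi]
      have := hN2 i (hJ' hi) v
      omega
    · simp only [hM, hd', if_neg hi, sdiff_bot]
      exact hd i v
  have hMC : ∀ i, MC (G i) (M i) q := fun i => by
    by_cases hi : i ∈ J'
    · simp only [hM, if_pos hi]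
      rcases hJ i (hJ' hi) with h | ⟨r, h, h'⟩
      · exact MC.of_deg _ _ q hq (hN i (hJ' hi)) (hN1 i (hJ' hi)) (fun v => (hd i v).trans h)
      · exact MC.of_pairs _ _ q r hq (hN i (hJ' hi)) (hN1 i (hJ' hi)) h h'
    · simp only [hM, if_neg hi]
      exact MC.of_colorable _ q hq (hcol i)
  have hpiM : ∀ x, ((piG M).neighborSet x).ncard ≤ J'.card := fun x => by
    rw [piG_deg]
    refine (sum_le_sum fun i _ => hMdeg i _).trans ?_
    rw [sum_boole, filter_mem_eq_inter, univ_inter]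
    exact le_rfl
  have hpiR : ∀ x, ((piG fun i => G i \ M i).neighborSet x).ncard ≤ ∑ i, d' i := fun x => by
    rw [piG_deg]
    exact sum_le_sum fun i _ => hrest i _
  -- the final step, given the classes of `B`
  have key : ∀ (r : ℕ) (NB : SimpleGraph X), NB ≤ B → (∀ v, (NB.neighborSet v).ncard ≤ r) →
      r + J'.card = m → r ≤ D →
      EC ((B \ NB).boxProd (piG fun i => G i \ M i)) (D - r + ∑ i, d' i) →
      ∃ C ≤ B.boxProd (piG G), MC (B.boxProd (piG G)) C q ∧ (∀ z, (C.neighborSet z).ncard ≤ m) ∧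
        ∃ t, EC (B.boxProd (piG G) \ C) t ∧ m + t = D + ∑ i, d i := by
    intro r NB h1 h2 h3 h4 h5
    refine ⟨NB.boxProd (piG M), box_mono h1 (piG_mono hMle), MC.box (MC.of_two B NB q hB)
      (MC.pi hMC), fun z => ?_, D - r + ∑ i, d' i, ?_, by omega⟩
    · rw [box_deg]
      have := h2 z.1
      have := hpiM z.2
      omega
    · rw [box_sdiff, piG_sdiff]
      exact h5
  rcases hcond with ⟨hD1, hcond⟩ | hcond
  · obtain ⟨NB, g1, g2, g3⟩ := ec_bip B hB D hD (m - J'.card) (by omega)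
    refine key (m - J'.card) NB g1 g2 (by omega) (by omega) ?_
    exact EC.box (by omega) g3 hpiR
  · have hc2 : 1 < (J \ J').card := by
      have := card_sdiff_add_card_eq_card hJ'
      omega
    obtain ⟨j, hj, k, hk, hjk⟩ := one_lt_card.1 hc2
    rw [mem_sdiff] at hj hk
    have hg : ∀ l, l ∈ J → l ∉ J' → Gd (G l \ M l) (d' l) := fun l hl hl' => by
      simp only [hM, hd', if_neg hl', sdiff_bot]
      exact ⟨N l, hN l hl, hN1 l hl, hN2 l hl⟩
    have hec := ec_pi (fun i => G i \ M i) d' hrest j k hjk (hg j hj.1 hj.2) (hg k hk.1 hk.2)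
    have hpos : 1 ≤ ∑ i, d' i := by
      have h1 : d' j ≤ ∑ i, d' i := single_le_sum (fun _ _ => Nat.zero_le _) (mem_univ j)
      have h2 : d' j = d j := if_neg hj.2
      have h3 := hd1 j hj.1
      omega
    refine key 0 ⊥ bot_le (fun v => by simp) (by omega) (by omega) ?_
    rw [sdiff_bot, Nat.sub_zero]
    exact EC.box' hpos hec hD

theorem Lab.comap {V W : Type} (e : V ≃ W) {G : SimpleGraph W} {p s : ℕ} (h : Lab G p s) :
    Lab (G.comap e) p s := by
  obtain ⟨fV, fE, h1, h2, h3, h4, h5⟩ := h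
  refine ⟨fun v => fV (e v), fun x => fE (x.map e), fun v => h1 _, ?_, fun u v h => h3 _ _ h,
    fun u v h => ?_, fun u v w h h' hne => ?_⟩
  · intro x
    induction x using Sym2.ind with
    | _ u v =>
      intro hx
      exact h2 _ hx
  · exact h4 _ _ h
  · exact h5 _ _ _ h h' (fun k => hne (e.injective k))

theorem Lab.bot_box {W Z : Type} {Q : SimpleGraph Z} {p s : ℕ} (h : Lab Q p s) :
    Lab ((⊥ : SimpleGraph W).boxProd Q) p s := by
  obtain ⟨fV, fE, h1, h2, h3, h4, h5⟩ := h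
  have key : ∀ u v : W × Z, ((⊥ : SimpleGraph W).boxProd Q).Adj u v →
      Q.Adj u.2 v.2 ∧ u.1 = v.1 := by
    intro u v h
    rw [boxProd_adj] at h
    rcases h with ⟨h, _⟩ | h
    · exact absurd h (by simp)
    · exact h
  refine Lab.of_fun (fun w => fV w.2) (fun u v => fE s(u.2, v.2)) (fun v => h1 _)
    (fun u v h => h3 _ _ (key u v h).1) (fun u v h => by rw [Sym2.eq_swap])
    (fun u v h => h2 _ (key u v h).1) (fun u v h => ?_) (fun u v w h h' hne => ?_)
  · have h6 := h4 _ _ (key u v h).1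
    rw [le_abs] at h6
    omega
  · refine h5 _ _ _ (key u v h).1 (key u w h').1 (fun k => hne (Prod.ext ?_ k))
    exact (key u v h).2.symm.trans (key u w h').2

theorem box_comap {W Z Z' : Type} (A : SimpleGraph W) (Q : SimpleGraph Z') (e : Z ≃ Z') :
    A.boxProd (Q.comap e) = (A.boxProd Q).comap (Equiv.prodCongr (Equiv.refl W) e) := by
  ext ⟨x, z⟩ ⟨x', z'⟩
  simp only [boxProd_adj, comap_adj, Equiv.prodCongr_apply, Prod.map_apply, Equiv.refl_apply,
    EmbeddingLike.apply_eq_iff_eq]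

end Pool.Agent.Y423.HY
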