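import Pool.Agent.Y423.HY.Pair

set_option autoImplicit false

/-!
The criterion for products with an arbitrary factor which has a circular `(p+1,1)`-total
labelling with few labels.
-/

namespace Pool.Agent.Y423.HY

open SimpleGraph Finset Pool.Agent.H238R2.HY

/-- reduction of `x < 2 n` modulo `n` -/
def red (n x : ℕ) : ℕ := if x < n then x else x - n

theorem red_lt {n x : ℕ} (h : x < 2 * n) : red n x < n := by
  unfold red
  split_ifs <;> omega

theorem red_inj {n a x y : ℕ} (hx : x < n) (hy : y < n) (ha : a < n)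
    (h : red n (x + a) = red n (y + a)) : x = y := by
  unfold red at h
  split_ifs at h <;> omega

theorem red_far {q p c e a b τ N : ℕ} (hN : N ≤ 2 * q) (hc : c < 2 * q) (he : e < 2 * q)
    (ha : a < q) (hτ : τ < 2) (h1 : ((p + 1 : ℕ) : ℤ) ≤ |(c : ℤ) - (e : ℤ)|)
    (h2 : |(c : ℤ) - (e : ℤ)| ≤ (N : ℤ) - ((p + 1 : ℕ) : ℤ)) (hb : b = red q (c / 2 + a)) :
    2 * b + τ + p ≤ red (2 * q) (e + 2 * a) ∨ red (2 * q) (e + 2 * a) + p ≤ 2 * b + τ := by
  rw [le_abs] at h1
  rw [abs_le] at h2
  unfold red at hb ⊢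
  split_ifs at hb ⊢ <;> omega

theorem crit0 {W Z : Type} [Finite W] [Finite Z] (A : SimpleGraph W) (Q C : SimpleGraph Z)
    (p q m t d0 : ℕ) (hp : 1 ≤ p) (hm : m + p + 1 + d0 = 2 * q)
    (N0 : ℕ) (hN0 : N0 ≤ 2 * q) (hA : CircLab A (p + 1) N0)
    (hd0 : ∀ x, (A.neighborSet x).ncard ≤ d0) (hC : C ≤ Q) (hMC : MC Q C q)
    (hdeg : ∀ z, (C.neighborSet z).ncard ≤ m) (hrest : EC (Q \ C) t) :
    Lab (A.boxProd Q) p (d0 + m + t + 2 * p - 1) := by
  classical
  have := Fintype.ofFinite W
  have : NeZero q := ⟨by omega⟩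
  obtain ⟨fV, fE, a1, a2, a3, a4, a5⟩ := hA
  obtain ⟨f, f1, f2⟩ := hMC
  obtain ⟨ψ, g1, g2, g3⟩ := hrest
  set a : Z → ℕ := fun z => (f z).1.val with ha
  set s : Z → ℕ := fun z => (f z).2.val with hs
  have ha1 : ∀ z, a z < q := fun z => ZMod.val_lt _
  have hs1 : ∀ z, s z < 2 := fun z => ZMod.val_lt _
  have hf : ∀ z z', a z = a z' → s z = s z' → f z = f z' := fun z z' h h' =>
    Prod.ext (ZMod.val_injective q h) (ZMod.val_injective 2 h')
  have hV : ∀ x, fV x < 2 * q := fun x => (a1 x).trans_le hN0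
  have hE : ∀ x x', A.Adj x x' → fE s(x, x') < 2 * q := fun x x' h =>
    (a2 _ h).trans_le hN0
  let β : W → Z → ℕ := fun x z => red q (fV x / 2 + a z)
  let τ : W → Z → ℕ := fun x z => (fV x % 2 + s z) % 2
  let g : W → W → Z → ℕ := fun x x' z => red (2 * q) (fE s(x, x') + 2 * a z)
  have hβ : ∀ x z, β x z < q := fun x z => red_lt (by
    have := hV x
    have := ha1 z
    omega)
  have hτ : ∀ x z, τ x z < 2 := fun x z => Nat.mod_lt _ (by norm_num)
  have hg : ∀ x x' z, A.Adj x x' → g x x' z < 2 * q := fun x x' z h => red_lt (by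
    have := hE x x' h
    have := ha1 z
    omega)
  have hgs : ∀ x x' z, g x x' z = g x' x z := fun x x' z => by
    simp only [g, Sym2.eq_swap]
  have hfar : ∀ x x' z, A.Adj x x' → ∀ r < 2,
      2 * β x z + r + p ≤ g x x' z ∨ g x x' z + p ≤ 2 * β x z + r := fun x x' z h r hr =>
    red_far hN0 (hV x) (hE x x' h) (ha1 z) hr (a5 x x' h).1 (a5 x x' h).2 rfl
  have hdegA : ∀ x, (A.neighborFinset x).card ≤ d0 := fun x => by
    have h := hd0 x
    rwa [Set.ncard_eq_toFinset_card', ← SimpleGraph.neighborFinset_def] at h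
  -- Galvin's theorem in every fibre
  have hgal : ∀ x : W, ∃ φ : Z → Z → ℕ, (∀ u v, C.Adj u v → φ u v = φ v u) ∧
      (∀ u v, C.Adj u v → φ u v ∈ (range (2 * q + p - 1)) \
        (Icc (2 * β x u + 1 - p) (2 * β x u + p) ∪
          (A.neighborFinset x).image (fun x' => g x x' u))) ∧
      ∀ u v w, C.Adj u v → C.Adj u w → v ≠ w → φ u v ≠ φ u w := by
    intro x
    refine galvin_par C m s ?_ hdeg (fun u _ => (range (2 * q + p - 1)) \
      (Icc (2 * β x u + 1 - p) (2 * β x u + p) ∪
        (A.neighborFinset x).image (fun x' => g x x' u))) ?_ ?_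
    · intro u v h e
      have h1 := f1 u v (hC h)
      have h2 := f2 u v h
      have h3 := hs1 u
      have h4 := hs1 v
      exact h1 (hf u v (congrArg ZMod.val h2) (by omega))
    · intro u v h
      have e : a u = a v := congrArg ZMod.val (f2 u v h)
      simp only [β, g, e]
    · intro u v _
      have e1 := le_card_sdiff (Icc (2 * β x u + 1 - p) (2 * β x u + p) ∪
        (A.neighborFinset x).image (fun x' => g x x' u)) (range (2 * q + p - 1))
      have e2 := card_union_le (Icc (2 * β x u + 1 - p) (2 * β x u + p))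
        ((A.neighborFinset x).image (fun x' => g x x' u))
      have e3 := card_image_le (s := A.neighborFinset x) (f := fun x' => g x x' u)
      have e4 := hdegA x
      rw [card_range] at e1
      rw [Nat.card_Icc] at e2
      omega
  choose φ φ1 φ2 φ3 using hgal
  have hφ : ∀ x u v, C.Adj u v → φ x u v < 2 * q + p - 1 := fun x u v h => by
    have e := φ2 x u v h
    rw [mem_sdiff, mem_range] at e
    exact e.1
  have hφfar : ∀ x u v, C.Adj u v → ∀ r < 2,
      2 * β x u + r + p ≤ φ x u v ∨ φ x u v + p ≤ 2 * β x u + r := fun x u v h r hr => by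
    have e := φ2 x u v h
    rw [mem_sdiff, mem_union, mem_Icc] at e
    have e2 := fun k => e.2 (Or.inl k)
    omega
  have hφg : ∀ x x' u v, C.Adj u v → A.Adj x x' → g x x' u ≠ φ x u v := fun x x' u v h h' e => by
    have k := φ2 x u v h
    rw [mem_sdiff, mem_union] at k
    exact k.2 (Or.inr (mem_image.2 ⟨x', (A.mem_neighborFinset x x').2 h', e⟩))
  have hadj : ∀ u v, Q.Adj u v → ¬ C.Adj u v → (Q \ C).Adj u v := fun u v h h' =>
    (sdiff_adj _ _ _ _).2 ⟨h, h'⟩
  refine Lab.of_fun (fun w => 2 * β w.1 w.2 + τ w.1 w.2)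
    (fun u v => if u.2 = v.2 then g u.1 v.1 u.2 else
      if C.Adj u.2 v.2 then φ u.1 u.2 v.2 else 2 * q + p - 1 + ψ u.2 v.2) ?_ ?_ ?_ ?_ ?_ ?_
  · rintro ⟨x, z⟩
    have h1 := hβ x z
    have h2 := hτ x z
    dsimp only
    omega
  · rintro ⟨x, z⟩ ⟨x', z'⟩ h e
    have h1 := hτ x z
    have h2 := hτ x' z'
    rw [boxProd_adj] at h
    dsimp only at h e
    have e1 : β x z = β x' z' := by omega
    have e2 : τ x z = τ x' z' := by omega
    rcases h with ⟨h, h'⟩ | ⟨h, h'⟩
    · subst h'
      have e3 : fV x / 2 = fV x' / 2 := red_inj (by have := hV x; omega)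
        (by have := hV x'; omega) (ha1 z) e1
      have e4 : (fV x % 2 + s z) % 2 = (fV x' % 2 + s z) % 2 := e2
      exact a3 x x' h (by omega)
    · subst h'
      have e3 : red q (a z + fV x / 2) = red q (a z' + fV x / 2) := by
        rw [add_comm (a z), add_comm (a z')]
        exact e1
      have e4 : a z = a z' := red_inj (ha1 z) (ha1 z') (by have := hV x; omega) e3
      have e5 : (fV x % 2 + s z) % 2 = (fV x % 2 + s z') % 2 := e2
      have e6 := hs1 z
      have e7 := hs1 z'
      exact f1 z z' h (hf z z' e4 (by omega))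
  · rintro ⟨x, z⟩ ⟨x', z'⟩ h
    rw [boxProd_adj] at h
    dsimp only at h ⊢
    rcases h with ⟨h, h'⟩ | ⟨h, h'⟩
    · subst h'
      simp only [if_true]
      exact hgs _ _ _
    · subst h'
      by_cases hc : C.Adj z z'
      · simp only [if_neg h.ne, if_neg h.ne', if_pos hc, if_pos hc.symm]
        exact φ1 x z z' hc
      · simp only [if_neg h.ne, if_neg h.ne', if_neg hc, if_neg (fun k => hc (SimpleGraph.Adj.symm k)),
          g1 z z' (hadj z z' h hc)]
  · rintro ⟨x, z⟩ ⟨x', z'⟩ h
    rw [boxProd_adj] at h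
    dsimp only at h ⊢
    rcases h with ⟨h, h'⟩ | ⟨h, h'⟩
    · subst h'
      simp only [if_true]
      have := hg x x' z h
      omega
    · subst h'
      by_cases hc : C.Adj z z'
      · simp only [if_neg h.ne, if_pos hc]
        have := hφ x z z' hc
        omega
      · simp only [if_neg h.ne, if_neg hc]
        have := g2 z z' (hadj z z' h hc)
        omega
  · rintro ⟨x, z⟩ ⟨x', z'⟩ h
    have hr := hτ x z
    rw [boxProd_adj] at h
    dsimp only at h ⊢
    rcases h with ⟨h, h'⟩ | ⟨h, h'⟩
    · subst h'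
      simp only [if_true]
      exact hfar x x' z h _ hr
    · subst h'
      by_cases hc : C.Adj z z'
      · simp only [if_neg h.ne, if_pos hc]
        exact hφfar x z z' hc _ hr
      · simp only [if_neg h.ne, if_neg hc]
        left
        have := hβ x z
        omega
  · rintro ⟨x, z⟩ ⟨x', z'⟩ ⟨x'', z''⟩ h k hne
    rw [boxProd_adj] at h k
    dsimp only at h k ⊢
    rcases h with ⟨h, h'⟩ | ⟨h, h'⟩
    · subst h'
      rcases k with ⟨k, k'⟩ | ⟨k, k'⟩
      · subst k'
        simp only [if_true]
        intro e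
        have hx : x' ≠ x'' := fun e => hne (by rw [e])
        refine a4 x x' x'' h k hx ?_
        have h3 := hE x x' h
        have h4 := hE x x'' k
        have h5 := ha1 z
        have e' : red (2 * q) (fE s(x, x') + 2 * a z) = red (2 * q) (fE s(x, x'') + 2 * a z) := e
        exact red_inj h3 h4 (by omega) e'
      · subst k'
        have h1 := hg x x' z h
        by_cases hc : C.Adj z z''
        · simp only [if_true, if_neg k.ne, if_pos hc]
          exact hφg x x' z z'' hc h
        · simp only [if_true, if_neg k.ne, if_neg hc]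
          omega
    · subst h'
      rcases k with ⟨k, k'⟩ | ⟨k, k'⟩
      · subst k'
        have h1 := hg x x'' z k
        by_cases hc : C.Adj z z'
        · simp only [if_true, if_neg h.ne, if_pos hc]
          exact (hφg x x'' z z' hc k).symm
        · simp only [if_true, if_neg h.ne, if_neg hc]
          omega
      · subst k'
        have hz : z' ≠ z'' := fun e => hne (by rw [e])
        by_cases hc : C.Adj z z'
        · have h1 := hφ x z z' hc
          by_cases hc' : C.Adj z z''
          · simp only [if_neg h.ne, if_neg k.ne, if_pos hc, if_pos hc']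
            exact φ3 x z z' z'' hc hc' hz
          · simp only [if_neg h.ne, if_neg k.ne, if_pos hc, if_neg hc']
            omega
        · by_cases hc' : C.Adj z z''
          · have h1 := hφ x z z'' hc'
            simp only [if_neg h.ne, if_neg k.ne, if_neg hc, if_pos hc']
            omega
          · simp only [if_neg h.ne, if_neg k.ne, if_neg hc, if_neg hc']
            have := g3 z z' z'' (hadj z z' h hc) (hadj z z'' k hc') hz
            omega

end Pool.Agent.Y423.HY
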